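import Mathlib
import Pool.Agent.Lib_helper89.CSP.Defs2
set_option autoImplicit false

/-! Block A1 -/

namespace Pool.Agent.CSP

open Finset

theorem a1_sub {n : ℕ} (u v : Fin n) :
    ((v : ℕ) ≤ u ∧ ((u - v : Fin n) : ℕ) = (u : ℕ) - v) ∨
      ((u : ℕ) < v ∧ ((u - v : Fin n) : ℕ) = n + (u : ℕ) - v) := by
  rcases Nat.lt_or_ge (u : ℕ) v with h | h
  · right
    exact ⟨h, Fin.coe_sub_iff_lt.2 (Fin.lt_def.2 h)⟩
  · left
    exact ⟨h, Fin.coe_sub_iff_le.2 (Fin.le_def.2 h)⟩

theorem a1_base {n : ℕ} [NeZero n] (f : Fin n → Fin n) (h : SP f) (s x y z w : Fin n)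
    (hxy : x ≠ y)
    (hpos : (((y - s : Fin n) : ℕ) : ℤ) - (((x - s : Fin n) : ℕ) : ℤ) =
      (((w - s : Fin n) : ℕ) : ℤ) - (((z - s : Fin n) : ℕ) : ℤ))
    (hf : (f y : ℕ) + f z = f w + f x) : x = z := by
  have h1 := h s (x - s) (y - s) (z - s) (w - s) (fun h => hxy (sub_left_inj.mp h)) hpos
    (by
      rw [add_sub_cancel, add_sub_cancel, add_sub_cancel, add_sub_cancel]
      omega)
  exact sub_left_inj.mp h1

/-- A1 -/
theorem sid_of_sp {n : ℕ} (f : Fin n → Fin n) (hf : Function.Bijective f) (h : SP f) :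
    Sid f := by
  intro a b c e hab h1 h2
  have hn : NeZero n := ⟨by
    intro h0
    subst h0
    exact a.elim0⟩
  have hbe : b = e → a = c := by
    intro hbe
    rw [hbe] at h1
    exact add_right_cancel h1
  have hc : c = a + e - b := eq_sub_of_add_eq h1.symm
  set α : Fin n := a - b with hα
  set τ : Fin n := e - b with hτ
  have hα0 : (α : ℕ) ≠ 0 := by
    intro h0
    apply hab
    have : α = 0 := Fin.ext (by simpa using h0)
    exact sub_eq_zero.mp this
  have hαn := α.isLt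
  have hτn := τ.isLt
  have hadd : ((α + τ : Fin n) : ℕ) = if n ≤ (α : ℕ) + τ then (α : ℕ) + τ - n else α + τ :=
    Fin.val_add_eq_ite α τ
  have z0 : ((0 : Fin n) : ℕ) = 0 := by simp
  -- the differences
  have d1 : c - b = α + τ := by rw [hc, hα, hτ]; abel
  have d2 : a - e = α - τ := by rw [hα, hτ]; abel
  have d3 : b - e = 0 - τ := by rw [hτ]; abel
  have d4 : c - e = α := by rw [hc, hα]; abel
  have d5 : b - a = 0 - α := by rw [hα]; abel
  have d6 : c - a = τ := by rw [hc, hτ]; abel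
  have d7 : e - a = τ - α := by rw [hα, hτ]; abel
  have d8 : a - c = 0 - τ := by rw [hc, hτ]; abel
  have d9 : b - c = 0 - (α + τ) := by rw [hc, hα, hτ]; abel
  have d10 : e - c = 0 - α := by rw [hc, hα]; abel
  rcases Nat.lt_or_ge ((α : ℕ) + τ) n with hc1 | hc1
  · -- base b
    apply hbe
    apply a1_base f h b b a e c (Ne.symm hab) _ h2
    rw [sub_self, d1, ← hα, ← hτ, hadd, if_neg (by omega), z0]
    push_cast
    ring
  · rcases Nat.lt_trichotomy (α : ℕ) τ with hc2 | hc2 | hc2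
    · -- base e
      apply hbe
      apply a1_base f h e b a e c (Ne.symm hab) _ h2
      rw [sub_self, d2, d3, d4, z0]
      rcases a1_sub α τ with ⟨h3, h4⟩ | ⟨h3, h4⟩ <;> rcases a1_sub 0 τ with ⟨h5, h6⟩ | ⟨h5, h6⟩ <;>
        rw [z0] at h5 h6 <;> omega
    · -- e = a
      have hea : e = a := by
        have : τ = α := Fin.ext hc2.symm
        rw [hα, hτ] at this
        exact sub_left_inj.mp this
      by_cases hc3 : (α : ℕ) + τ = n
      · exfalso
        have h3 : (α + τ : Fin n) = 0 := by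
          apply Fin.ext
          rw [hadd, if_pos (by omega), z0]
          omega
        rw [h3, sub_eq_zero] at d1
        rw [hea, d1] at h2
        exact hab (hf.1 (Fin.ext (by omega)))
      · -- base c
        apply hbe
        apply a1_base f h c b a e c (Ne.symm hab) _ h2
        rw [sub_self, d8, d9, d10, z0]
        have h7 : ((α + τ : Fin n) : ℕ) = (α : ℕ) + τ - n := by rw [hadd, if_pos hc1]
        rcases a1_sub 0 τ with ⟨h3, h4⟩ | ⟨h3, h4⟩ <;>
          rcases a1_sub 0 (α + τ) with ⟨h5, h6⟩ | ⟨h5, h6⟩ <;>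
          rcases a1_sub 0 α with ⟨h8, h9⟩ | ⟨h8, h9⟩ <;>
          rw [z0] at h3 h4 h5 h6 h8 h9 <;> omega
    · -- base a
      apply hbe
      apply a1_base f h a b a e c (Ne.symm hab) _ h2
      rw [sub_self, d5, d6, d7, z0]
      rcases a1_sub τ α with ⟨h3, h4⟩ | ⟨h3, h4⟩ <;> rcases a1_sub 0 α with ⟨h5, h6⟩ | ⟨h5, h6⟩ <;>
        rw [z0] at h5 h6 <;> omega

end Pool.Agent.CSP
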