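import Mathlib
import Pool.Agent.Lib_helper89.CSP.Defs2
set_option autoImplicit false

/-! Block A2 -/

namespace Pool.Agent.CSP

open Finset

theorem a2_ne_zero {n : ℕ} (a : Fin n) : NeZero n := ⟨by
  intro h0
  subst h0
  exact a.elim0⟩

/-- a representation of a cell which is not a dot avoids the column of the cell -/
theorem rep_ne {n : ℕ} {f : Fin n → Fin n} (hs : Sid f) (hf : Function.Injective f)
    {i y : Fin n} (hy : y ≠ f i) {a b c : Fin n} (h1 : a + b = i + c)
    (h2 : (f a : ℕ) + f b = y + f c) : a ≠ i ∧ b ≠ i := by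
  have hn := a2_ne_zero a
  constructor
  · intro h
    rw [h] at h1 h2
    have h3 : b = c := add_left_cancel h1
    rw [h3] at h2
    exact hy (Fin.ext (by omega))
  · intro h
    rw [h, add_comm] at h1
    rw [h] at h2
    have h3 : a = c := add_left_cancel h1
    rw [h3] at h2
    exact hy (Fin.ext (by omega))

theorem a2_ne {n : ℕ} {f : Fin n → Fin n} {i y : Fin n} (hy : y ≠ f i) {a b c : Fin n}
    (h1 : a + b = i + c) (h2 : (f a : ℕ) + f b = y + f c) : b ≠ c ∧ a ≠ c := by
  have hn := a2_ne_zero a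
  constructor
  · intro h
    rw [h] at h1 h2
    have h3 : a = i := add_right_cancel h1
    rw [h3] at h2
    exact hy (Fin.ext (by omega))
  · intro h
    rw [h, add_comm] at h1
    rw [h] at h2
    have h3 : b = i := add_right_cancel h1
    rw [h3] at h2
    exact hy (Fin.ext (by omega))

/-- A2: the number of `(a, b, c)` with a given column in one of the three roles -/
theorem rep_b {n : ℕ} {f : Fin n → Fin n} (hs : Sid f) {i y : Fin n} (hy : y ≠ f i)
    {a a' b c c' : Fin n} (h1 : a + b = i + c) (h2 : (f a : ℕ) + f b = y + f c)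
    (h1' : a' + b = i + c') (h2' : (f a' : ℕ) + f b = y + f c') : a = a' ∧ c = c' := by
  have hn := a2_ne_zero a
  have h3 : a + c' = a' + c := by
    have : (a + b) + (i + c') = (a' + b) + (i + c) := by rw [h1, h1']; abel
    have h4 : (a + c') + (b + i) = (a' + c) + (b + i) := by
      calc (a + c') + (b + i) = (a + b) + (i + c') := by abel
        _ = (a' + b) + (i + c) := this
        _ = (a' + c) + (b + i) := by abel
    exact add_right_cancel h4
  have h5 : a = a' := hs a c a' c' (a2_ne hy h1 h2).2 h3 (by omega)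
  refine ⟨h5, ?_⟩
  rw [h5] at h3
  exact (add_left_cancel h3).symm

theorem rep_a {n : ℕ} {f : Fin n → Fin n} (hs : Sid f) {i y : Fin n} (hy : y ≠ f i)
    {a b b' c c' : Fin n} (h1 : a + b = i + c) (h2 : (f a : ℕ) + f b = y + f c)
    (h1' : a + b' = i + c') (h2' : (f a : ℕ) + f b' = y + f c') : b = b' ∧ c = c' := by
  have hn := a2_ne_zero a
  rw [add_comm] at h1 h1'
  rw [add_comm] at h2 h2'
  exact rep_b hs hy h1 h2 h1' h2'

theorem rep_c {n : ℕ} {f : Fin n → Fin n} (hs : Sid f) {i y : Fin n} (hy : y ≠ f i)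
    {a a' b b' c : Fin n} (h1 : a + b = i + c) (h2 : (f a : ℕ) + f b = y + f c)
    (h1' : a' + b' = i + c) (h2' : (f a' : ℕ) + f b' = y + f c) :
    (a = a' ∧ b = b') ∨ (a = b' ∧ b = a') := by
  have hn := a2_ne_zero a
  by_cases h : a = a'
  · left
    refine ⟨h, ?_⟩
    rw [← h] at h1'
    rw [← h1'] at h1
    exact add_left_cancel h1
  · right
    have h3 : a + b = b' + a' := by rw [h1, ← h1', add_comm]
    have h4 : a = b' := hs a a' b' b h h3 (by omega)
    refine ⟨h4, ?_⟩
    rw [h4] at h3
    exact add_left_cancel h3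

/-- a dot is never excluded -/
theorem not_cov {n : ℕ} {f : Fin n → Fin n} (hs : Sid f) (J : Finset (Fin n)) (i : Fin n) :
    ¬ Cov f J i (f i) := by
  have hn := a2_ne_zero i
  rintro ⟨a, _, b, _, c, _, hai, hbi, h1, h2⟩
  have h3 : a = c := hs a i c b hai (by rw [h1, add_comm]) (by omega)
  rw [h3, add_comm] at h1
  exact hbi (add_right_cancel h1)

end Pool.Agent.CSP
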