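import Mathlib
import Pool.Agent.Lib_helper89.CSP.Defs2
set_option autoImplicit false

namespace Pool.Agent.CSP

open Finset

theorem c1_card {ι : Type} [DecidableEq ι] {n : ℕ} (R : Finset ι) (t : ι → Finset (Fin n))
    (h1 : ∀ a ∈ R, (t a).card ≤ 3)
    (h2 : ∀ j : Fin n, (R.filter (fun a => j ∈ t a)).card ≤ 4) (a : ι) (ha : a ∈ R) :
    (R.filter (fun b => ¬ Disjoint (t a) (t b))).card ≤ 12 := by
  have h3 : R.filter (fun b => ¬ Disjoint (t a) (t b)) ⊆
      (t a).biUnion (fun j => R.filter (fun b => j ∈ t b)) := by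
    intro b hb
    obtain ⟨hbR, hb2⟩ := mem_filter.1 hb
    rw [Finset.not_disjoint_iff] at hb2
    obtain ⟨j, hja, hjb⟩ := hb2
    exact mem_biUnion.2 ⟨j, hja, mem_filter.2 ⟨hbR, hjb⟩⟩
  refine (card_le_card h3).trans (card_biUnion_le.trans ?_)
  refine (sum_le_card_nsmul _ _ 4 (fun j _ => h2 j)).trans ?_
  rw [smul_eq_mul]
  have := h1 a ha
  omega

/-- C1 -/
theorem disj {ι : Type} [DecidableEq ι] {n : ℕ} (R : Finset ι) (t : ι → Finset (Fin n))
    (h0 : ∀ a ∈ R, (t a).Nonempty) (h1 : ∀ a ∈ R, (t a).card ≤ 3)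
    (h2 : ∀ j : Fin n, (R.filter (fun a => j ∈ t a)).card ≤ 4) :
    ∃ R' : Finset ι, R' ⊆ R ∧ R.card ≤ 12 * R'.card ∧
      ∀ a ∈ R', ∀ b ∈ R', a ≠ b → Disjoint (t a) (t b) := by
  induction R using Finset.strongInduction with
  | H R ih =>
    rcases R.eq_empty_or_nonempty with rfl | ⟨a, ha⟩
    · exact ⟨∅, by simp, by simp, by simp⟩
    · set N := R.filter (fun b => ¬ Disjoint (t a) (t b)) with hN
      have haN : a ∈ N := by
        rw [hN, mem_filter]
        refine ⟨ha, ?_⟩
        rw [disjoint_self]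
        exact (h0 a ha).ne_empty
      have hNR : N ⊆ R := filter_subset _ _
      have hlt : R \ N ⊂ R := by
        refine ⟨sdiff_subset, fun hsub => ?_⟩
        exact (mem_sdiff.1 (hsub ha)).2 haN
      obtain ⟨R1, hR1, hc, hd⟩ := ih (R \ N) hlt (fun b hb => h0 b (mem_sdiff.1 hb).1)
        (fun b hb => h1 b (mem_sdiff.1 hb).1)
        (fun j => (card_le_card (filter_subset_filter _ sdiff_subset)).trans (h2 j))
      have ha1 : a ∉ R1 := fun h => (mem_sdiff.1 (hR1 h)).2 haN
      have hdis : ∀ b ∈ R1, Disjoint (t a) (t b) := by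
        intro b hb
        by_contra hcon
        obtain ⟨hbR, hbN⟩ := mem_sdiff.1 (hR1 hb)
        exact hbN (mem_filter.2 ⟨hbR, hcon⟩)
      refine ⟨insert a R1, ?_, ?_, ?_⟩
      · intro b hb
        rcases mem_insert.1 hb with rfl | hb
        · exact ha
        · exact (mem_sdiff.1 (hR1 hb)).1
      · rw [card_insert_of_notMem ha1]
        have h3 := card_sdiff_add_card_eq_card hNR
        have h4 := c1_card R t h1 h2 a ha
        rw [← hN] at h4
        omega
      · intro b hb c hc hbc
        rcases mem_insert.1 hb with hb | hb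
        · rcases mem_insert.1 hc with hc | hc
          · exact absurd (hb.trans hc.symm) hbc
          · rw [hb]
            exact hdis c hc
        · rcases mem_insert.1 hc with hc | hc
          · rw [hc]
            exact (hdis b hb).symm
          · exact hd b hb c hc hbc

end Pool.Agent.CSP
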