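import Mathlib
import Pool.Agent.Lib_helper89.CSP.Defs2
set_option autoImplicit false

namespace Pool.Agent.CSP

open Finset

theorem c2_step {n q : ℕ} (S : Finset (Fin n → Fin (q + 1))) (T : Finset (Fin n))
    (hT : T.card ≤ 3) (S' : Finset (Fin n → Fin (q + 1)))
    (hS : ∀ h ∈ S, (fun i => if i ∈ T then 0 else h i) ∈ S') :
    S.card ≤ (q + 1) ^ 3 * S'.card := by
  refine Finset.card_le_mul_card_image_of_maps_to (f := fun h i => if i ∈ T then 0 else h i)
    hS _ ?_
  intro h' _
  have h1 : ((S.filter (fun h => (fun i => if i ∈ T then 0 else h i) = h')).card : ℕ) ≤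
      (Finset.univ : Finset (↥T → Fin (q + 1))).card := by
    refine Finset.card_le_card_of_injOn (fun h (i : ↥T) => h i.1) (fun _ _ => Finset.mem_univ _) ?_
    intro h1 hh1 h2 hh2 he
    simp only [Finset.coe_filter, Set.mem_ofPred_eq] at hh1 hh2
    funext i
    by_cases hi : i ∈ T
    · exact congrFun he ⟨i, hi⟩
    · have e1 := congrFun hh1.2 i
      have e2 := congrFun hh2.2 i
      simp only [if_neg hi] at e1 e2
      rw [e1, e2]
  refine h1.trans ?_
  rw [Finset.card_univ, Fintype.card_fun, Fintype.card_fin, Fintype.card_coe]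
  exact Nat.pow_le_pow_right (Nat.succ_pos q) hT

/-- C2 -/
theorem avoid {ι : Type} [DecidableEq ι] {n q : ℕ} (R : Finset ι) (t : ι → Finset (Fin n))
    (h1 : ∀ a ∈ R, (t a).card ≤ 3) (h2 : ∀ a ∈ R, ∀ b ∈ R, a ≠ b → Disjoint (t a) (t b)) :
    ((univ.filter (fun h : Fin n → Fin (q + 1) => ∀ a ∈ R, ¬ t a ⊆ col h)).card : ℝ) ≤
      ((q : ℝ) + 1) ^ n * (1 - 1 / ((q : ℝ) + 1) ^ 3) ^ R.card := by
  classical
  induction R using Finset.induction_on with
  | empty =>
    simp
  | insert a R ha ih =>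
    have ih' := ih (fun b hb => h1 b (Finset.mem_insert_of_mem hb))
      (fun b hb c hc => h2 b (Finset.mem_insert_of_mem hb) c (Finset.mem_insert_of_mem hc))
    set S := univ.filter (fun h : Fin n → Fin (q + 1) => ∀ b ∈ R, ¬ t b ⊆ col h) with hSd
    set S' := S.filter (fun h => t a ⊆ col h) with hS'
    have hsplit : (univ.filter (fun h : Fin n → Fin (q + 1) =>
        ∀ b ∈ insert a R, ¬ t b ⊆ col h)) = S.filter (fun h => ¬ t a ⊆ col h) := by
      ext h
      simp only [hSd, Finset.mem_filter, Finset.mem_univ, true_and, Finset.forall_mem_insert]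
      tauto
    have hcard := Finset.card_filter_add_card_filter_not (s := S) (fun h => t a ⊆ col h)
    have hstep : S.card ≤ (q + 1) ^ 3 * S'.card := by
      refine c2_step S (t a) (h1 a (Finset.mem_insert_self _ _)) S' ?_
      intro h hh
      simp only [hS', hSd, Finset.mem_filter, Finset.mem_univ, true_and] at hh ⊢
      refine ⟨fun b hb hsub => hh b hb ?_, ?_⟩
      · have hab : Disjoint (t a) (t b) := h2 a (Finset.mem_insert_self _ _) b
          (Finset.mem_insert_of_mem hb) (fun h => ha (h ▸ hb))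
        intro i hi
        have h3 := hsub hi
        have h4 : i ∉ t a := fun h5 => (Finset.disjoint_left.1 hab h5) hi
        simp only [col, Finset.mem_filter, Finset.mem_univ, true_and, if_neg h4] at h3 ⊢
        exact h3
      · intro i hi
        simp [col, hi]
    rw [hsplit, Finset.card_insert_of_notMem ha, pow_succ]
    have hN : (0 : ℝ) < ((q : ℝ) + 1) ^ 3 := by positivity
    have e1 : (S.card : ℝ) ≤ ((q : ℝ) + 1) ^ 3 * S'.card := by exact_mod_cast hstep
    have e2 : (S'.card : ℝ) + ((S.filter (fun h => ¬ t a ⊆ col h)).card : ℝ) = S.card := by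
      exact_mod_cast hcard
    have e3 : (S.card : ℝ) * (1 / ((q : ℝ) + 1) ^ 3) ≤ S'.card := by
      rw [mul_one_div, div_le_iff₀ hN]; linarith
    have e4 : (0 : ℝ) ≤ 1 - 1 / ((q : ℝ) + 1) ^ 3 := by
      rw [sub_nonneg, div_le_one hN]
      exact one_le_pow₀ (by have : (0 : ℝ) ≤ q := Nat.cast_nonneg q; linarith)
    calc ((S.filter (fun h => ¬ t a ⊆ col h)).card : ℝ)
        ≤ S.card * (1 - 1 / ((q : ℝ) + 1) ^ 3) := by linarith
      _ ≤ (((q : ℝ) + 1) ^ n * (1 - 1 / ((q : ℝ) + 1) ^ 3) ^ R.card) *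
          (1 - 1 / ((q : ℝ) + 1) ^ 3) := mul_le_mul_of_nonneg_right ih' e4
      _ = _ := by ring

end Pool.Agent.CSP
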