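import Mathlib
import Pool.Agent.Lib_helper89.CSP.Defs2
import Pool.Agent.Lib_helper89.CSP.R.A2
import Pool.Agent.Lib_helper89.CSP.R.C1
import Pool.Agent.Lib_helper89.CSP.R.C2
set_option autoImplicit false

/-! Block C3: the probability that a cell with many representations is not excluded -/

namespace Pool.Agent.CSP

open Finset

/-- the elementary inequality -/
theorem c3_exp (q s k : ℕ) (h : s ≤ 12 * k) :
    (1 - 1 / ((q : ℝ) + 1) ^ 3) ^ k ≤ Real.exp (-((s : ℝ) / (12 * ((q : ℝ) + 1) ^ 3))) := by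
  have hq : (1 : ℝ) ≤ ((q : ℝ) + 1) ^ 3 := by
    apply one_le_pow₀
    have : (0 : ℝ) ≤ q := Nat.cast_nonneg q
    linarith
  have hpos : (0 : ℝ) < ((q : ℝ) + 1) ^ 3 := by linarith
  have h0 : 0 ≤ 1 - 1 / ((q : ℝ) + 1) ^ 3 := by
    have : 1 / ((q : ℝ) + 1) ^ 3 ≤ 1 := by
      rw [div_le_one hpos]
      exact hq
    linarith
  have h1 : 1 - 1 / ((q : ℝ) + 1) ^ 3 ≤ Real.exp (-(1 / ((q : ℝ) + 1) ^ 3)) :=
    Real.one_sub_le_exp_neg _
  calc (1 - 1 / ((q : ℝ) + 1) ^ 3) ^ k
      ≤ (Real.exp (-(1 / ((q : ℝ) + 1) ^ 3))) ^ k := pow_le_pow_left₀ h0 h1 k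
    _ = Real.exp (k * (-(1 / ((q : ℝ) + 1) ^ 3))) := (Real.exp_nat_mul _ k).symm
    _ ≤ Real.exp (-((s : ℝ) / (12 * ((q : ℝ) + 1) ^ 3))) := by
        apply Real.exp_le_exp.mpr
        have h2 : (s : ℝ) ≤ 12 * k := by exact_mod_cast h
        have h3 : (s : ℝ) / (12 * ((q : ℝ) + 1) ^ 3) ≤ k * (1 / ((q : ℝ) + 1) ^ 3) := by
          rw [mul_one_div, div_le_div_iff₀ (by positivity) hpos]
          nlinarith
        linarith

open Classical in
/-- C3 (uses A2, C1, C2) -/
theorem cov_prob {n q s : ℕ} {f : Fin n → Fin n} (hs : Sid f) (hf : Function.Injective f)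
    {x : Fin n × Fin n} (hx : x.2 ≠ f x.1) (h : s < (rep f x.1 x.2).card) :
    ((univ.filter (fun h : Fin n → Fin (q + 1) => ¬ Cov f (col h) x.1 x.2)).card : ℝ) ≤
      ((q : ℝ) + 1) ^ n * Real.exp (-((s : ℝ) / (12 * ((q : ℝ) + 1) ^ 3))) := by
  obtain ⟨i, y⟩ := x
  simp only at hx h
  have hmem : ∀ a ∈ rep f i y, a ≠ i ∧ ∃ p : Fin n × Fin n,
      a + p.1 = i + p.2 ∧ (f a : ℕ) + f p.1 = y + f p.2 := by
    intro a ha
    obtain ⟨h1, b, c, h2, h3⟩ := (Finset.mem_filter.mp ha).2
    exact ⟨h1, (b, c), h2, h3⟩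
  have hch : ∃ g : Fin n → Fin n × Fin n, ∀ a ∈ rep f i y,
      a + (g a).1 = i + (g a).2 ∧ (f a : ℕ) + f (g a).1 = y + f (g a).2 := by
    refine ⟨fun a => if ha : a ∈ rep f i y then (hmem a ha).2.choose else (a, a), ?_⟩
    intro a ha
    simp only [ha, dif_pos]
    exact (hmem a ha).2.choose_spec
  obtain ⟨g, hg⟩ := hch
  let t : Fin n → Finset (Fin n) := fun a => {a, (g a).1, (g a).2}
  have h0 : ∀ a ∈ rep f i y, (t a).Nonempty := fun a _ => ⟨a, Finset.mem_insert_self _ _⟩
  have h1 : ∀ a ∈ rep f i y, (t a).card ≤ 3 := fun a _ => Finset.card_le_three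
  have h2 : ∀ j : Fin n, ((rep f i y).filter (fun a => j ∈ t a)).card ≤ 4 := by
    intro j
    have hsub : (rep f i y).filter (fun a => j ∈ t a) ⊆
        {j} ∪ ((rep f i y).filter (fun a => (g a).1 = j) ∪
          (rep f i y).filter (fun a => (g a).2 = j)) := by
      intro a ha
      obtain ⟨ha1, ha2⟩ := Finset.mem_filter.mp ha
      simp only [t, Finset.mem_insert, Finset.mem_singleton] at ha2
      simp only [Finset.mem_union, Finset.mem_singleton, Finset.mem_filter]
      rcases ha2 with ha2 | ha2 | ha2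
      · exact Or.inl ha2.symm
      · exact Or.inr (Or.inl ⟨ha1, ha2.symm⟩)
      · exact Or.inr (Or.inr ⟨ha1, ha2.symm⟩)
    have hb : ((rep f i y).filter (fun a => (g a).1 = j)).card ≤ 1 := by
      apply Finset.card_le_one.mpr
      intro a ha a' ha'
      obtain ⟨ha1, ha2⟩ := Finset.mem_filter.mp ha
      obtain ⟨ha1', ha2'⟩ := Finset.mem_filter.mp ha'
      obtain ⟨e1, e2⟩ := hg a ha1
      obtain ⟨e1', e2'⟩ := hg a' ha1'
      rw [ha2] at e1 e2
      rw [ha2'] at e1' e2'
      exact (rep_b hs hx e1 e2 e1' e2').1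
    have hc : ((rep f i y).filter (fun a => (g a).2 = j)).card ≤ 2 := by
      rcases Finset.eq_empty_or_nonempty ((rep f i y).filter (fun a => (g a).2 = j)) with he | he
      · rw [he]
        simp
      · obtain ⟨a0, ha0⟩ := he
        obtain ⟨ha1, ha2⟩ := Finset.mem_filter.mp ha0
        obtain ⟨e1, e2⟩ := hg a0 ha1
        have hsub2 : (rep f i y).filter (fun a => (g a).2 = j) ⊆ {a0, (g a0).1} := by
          intro a' ha'
          obtain ⟨ha1', ha2'⟩ := Finset.mem_filter.mp ha'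
          obtain ⟨e1', e2'⟩ := hg a' ha1'
          rw [ha2'] at e1' e2'
          rw [ha2] at e1 e2
          rcases rep_c hs hx e1 e2 e1' e2' with ⟨h5, _⟩ | ⟨_, h6⟩
          · rw [← h5]
            exact Finset.mem_insert_self _ _
          · rw [h6]
            exact Finset.mem_insert_of_mem (Finset.mem_singleton_self _)
        exact (Finset.card_le_card hsub2).trans Finset.card_le_two
    calc ((rep f i y).filter (fun a => j ∈ t a)).card
        ≤ ({j} ∪ ((rep f i y).filter (fun a => (g a).1 = j) ∪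
          (rep f i y).filter (fun a => (g a).2 = j))).card := Finset.card_le_card hsub
      _ ≤ ({j} : Finset (Fin n)).card + ((rep f i y).filter (fun a => (g a).1 = j) ∪
          (rep f i y).filter (fun a => (g a).2 = j)).card := Finset.card_union_le _ _
      _ ≤ 1 + (1 + 2) := by
          refine Nat.add_le_add (le_of_eq (Finset.card_singleton j)) ?_
          exact (Finset.card_union_le _ _).trans (Nat.add_le_add hb hc)
      _ = 4 := rfl
  obtain ⟨R', hR1, hR2, hR3⟩ := disj (rep f i y) t h0 h1 h2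
  have hav := avoid (q := q) R' t (fun a ha => h1 a (hR1 ha)) hR3
  have hexp := c3_exp q s R'.card (by omega)
  refine le_trans (le_trans (Nat.cast_le.mpr (Finset.card_le_card ?_)) hav)
    (mul_le_mul_of_nonneg_left hexp (by positivity))
  intro c hc
  have hc2 := (Finset.mem_filter.mp hc).2
  simp only [Finset.mem_filter, Finset.mem_univ, true_and]
  intro a ha hsubset
  apply hc2
  obtain ⟨e1, e2⟩ := hg a (hR1 ha)
  obtain ⟨n1, n2⟩ := rep_ne hs hf hx e1 e2
  refine ⟨a, hsubset (Finset.mem_insert_self _ _), (g a).1,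
    hsubset (Finset.mem_insert_of_mem (Finset.mem_insert_self _ _)), (g a).2,
    hsubset (Finset.mem_insert_of_mem (Finset.mem_insert_of_mem
      (Finset.mem_singleton_self _))), n1, n2, e1, e2⟩

end Pool.Agent.CSP
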