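import Mathlib
import Pool.Agent.Lib_helper89.CSP.Defs2
set_option autoImplicit false


namespace Pool.Agent.CSP

open Finset

theorem c4_card {n q : ℕ} (i : Fin n) :
    (q + 1) * (univ.filter (fun h : Fin n → Fin (q + 1) => h i = 0)).card = (q + 1) ^ n := by
  have h1 : univ.filter (fun h : Fin n → Fin (q + 1) => h i = 0) =
      Fintype.piFinset (fun j : Fin n => if j = i then ({0} : Finset (Fin (q + 1))) else univ) := by
    ext h
    rw [mem_filter, Fintype.mem_piFinset]
    constructor
    · rintro ⟨-, h2⟩ j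
      by_cases hj : j = i
      · rw [if_pos hj, hj, mem_singleton]
        exact h2
      · rw [if_neg hj]
        exact mem_univ _
    · intro h2
      have h3 := h2 i
      rw [if_pos rfl, mem_singleton] at h3
      exact ⟨mem_univ _, h3⟩
  rw [h1, Fintype.card_piFinset]
  have h2 : (q + 1) = ∏ j : Fin n, (if j = i then (q + 1) else 1) := by
    rw [prod_ite_eq']
    simp
  have h3 : (q + 1) * ∏ j : Fin n, (if j = i then ({0} : Finset (Fin (q + 1))) else univ).card =
      ∏ j : Fin n, ((if j = i then (q + 1) else 1) *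
        (if j = i then ({0} : Finset (Fin (q + 1))) else univ).card) := by
    rw [prod_mul_distrib, ← h2]
  rw [h3]
  have h4 : ∀ j : Fin n, ((if j = i then (q + 1) else 1) *
        (if j = i then ({0} : Finset (Fin (q + 1))) else univ).card) = q + 1 := by
    intro j
    by_cases hj : j = i
    · rw [if_pos hj, if_pos hj, card_singleton, mul_one]
    · rw [if_neg hj, if_neg hj, card_univ, Fintype.card_fin, one_mul]
  rw [prod_congr rfl fun j _ => h4 j, prod_const, card_univ, Fintype.card_fin]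

/-- C4: Markov -/
theorem markov {n q : ℕ} (w : Fin n → ℕ) :
    4 * (univ.filter (fun h : Fin n → Fin (q + 1) =>
      4 * (∑ i, w i) < (q + 1) * (∑ i ∈ col h, w i))).card ≤ (q + 1) ^ n := by
  have hsum : (q + 1) * ∑ h : Fin n → Fin (q + 1), ∑ i ∈ col h, w i =
      (∑ i, w i) * (q + 1) ^ n := by
    have h1 : ∀ h : Fin n → Fin (q + 1), ∑ i ∈ col h, w i = ∑ i, if h i = 0 then w i else 0 := by
      intro h
      unfold col
      rw [sum_filter]
    rw [sum_congr rfl fun h _ => h1 h, sum_comm, mul_sum, sum_mul]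
    refine sum_congr rfl fun i _ => ?_
    rw [← sum_filter, sum_const, smul_eq_mul, ← mul_assoc, c4_card i, mul_comm]
  rcases Nat.eq_zero_or_pos (∑ i, w i) with h0 | h0
  · have h1 : univ.filter (fun h : Fin n → Fin (q + 1) =>
        4 * (∑ i, w i) < (q + 1) * (∑ i ∈ col h, w i)) = ∅ := by
      refine filter_eq_empty_iff.2 fun h _ => ?_
      have h2 : ∑ i ∈ col h, w i ≤ ∑ i, w i := sum_le_univ_sum_of_nonneg fun _ => Nat.zero_le _
      rw [h0] at h2 ⊢
      rw [Nat.le_zero.1 h2]
      simp
    rw [h1]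
    simp
  · refine Nat.le_of_mul_le_mul_left ?_ h0
    rw [← hsum]
    obtain ⟨F, hF⟩ : ∃ F : Finset (Fin n → Fin (q + 1)), F = univ.filter
      (fun h : Fin n → Fin (q + 1) => 4 * (∑ i, w i) < (q + 1) * (∑ i ∈ col h, w i)) := ⟨_, rfl⟩
    rw [← hF]
    have h5 : F.card • (4 * ∑ i, w i) ≤ ∑ h ∈ F, (q + 1) * ∑ i ∈ col h, w i := by
      refine card_nsmul_le_sum _ _ _ fun h hh => ?_
      rw [hF] at hh
      exact (mem_filter.1 hh).2.le
    have h6 : ∑ h ∈ F, (q + 1) * ∑ i ∈ col h, w i ≤
        ∑ h : Fin n → Fin (q + 1), (q + 1) * ∑ i ∈ col h, w i :=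
      sum_le_sum_of_subset (subset_univ F)
    have h7 := h5.trans h6
    rw [← mul_sum, smul_eq_mul] at h7
    refine le_trans (le_of_eq ?_) h7
    ring

end Pool.Agent.CSP
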