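import Mathlib
import Pool.Agent.Lib_helper89.CSP.Defs2
import Pool.Agent.Lib_helper89.CSP.R.C3
import Pool.Agent.Lib_helper89.CSP.R.C4
set_option autoImplicit false

/-! Block C5 -/

namespace Pool.Agent.CSP

open Finset

theorem c5_fib {n : ℕ} (f : Fin n → Fin n) (C : Finset (Fin n × Fin n)) (S : Finset (Fin n)) :
    ∑ i ∈ S, (C.filter (fun x => x.2 ≠ f x.1 ∧ x.1 = i)).card =
      (C.filter (fun x => x.1 ∈ S ∧ x.2 ≠ f x.1)).card := by
  rw [Finset.card_eq_sum_card_fiberwise (f := Prod.fst) (t := S)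
    (s := C.filter (fun x => x.1 ∈ S ∧ x.2 ≠ f x.1))
    (fun x hx => (Finset.mem_filter.mp hx).2.1)]
  refine Finset.sum_congr rfl fun i hi => ?_
  congr 1
  ext x
  simp only [Finset.mem_filter]
  constructor
  · rintro ⟨h1, h2, h3⟩
    exact ⟨⟨h1, h3 ▸ hi, h2⟩, h3⟩
  · rintro ⟨⟨h1, _, h2⟩, h3⟩
    exact ⟨h1, h2, h3⟩

theorem c5_exp {n q s : ℕ} (hn : 2 ≤ n)
    (h : 12 * ((q : ℝ) + 1) ^ 3 * (2 * Real.log n + 3) ≤ s) :
    (n : ℝ) ^ 2 * Real.exp (-((s : ℝ) / (12 * ((q : ℝ) + 1) ^ 3))) ≤ 1 / 20 := by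
  have hn0 : (0 : ℝ) < n := by positivity
  have hq : (0 : ℝ) < 12 * ((q : ℝ) + 1) ^ 3 := by positivity
  have h1 : 2 * Real.log n + 3 ≤ (s : ℝ) / (12 * ((q : ℝ) + 1) ^ 3) := by
    rw [le_div_iff₀ hq]
    linarith
  have h2 : Real.exp (-((s : ℝ) / (12 * ((q : ℝ) + 1) ^ 3))) ≤
      Real.exp (-(2 * Real.log n + 3)) := Real.exp_le_exp.mpr (by linarith)
  have h3 : (n : ℝ) ^ 2 * Real.exp (-(2 * Real.log n + 3)) = Real.exp (-3) := by
    have : (n : ℝ) ^ 2 = Real.exp (2 * Real.log n) := by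
      rw [two_mul, Real.exp_add, Real.exp_log hn0, sq]
    rw [this, ← Real.exp_add]
    congr 1
    ring
  have h4 : Real.exp (-3) ≤ 1 / 20 := by
    have e1 : Real.exp 3 = Real.exp 1 ^ 3 := by
      rw [← Real.exp_nat_mul]; norm_num
    have e2 : (2.718 : ℝ) < Real.exp 1 := by
      have := Real.exp_one_gt_d9
      linarith
    have e3 : (20 : ℝ) ≤ Real.exp 3 := by
      rw [e1]
      have : (2.718 : ℝ) ^ 3 ≤ Real.exp 1 ^ 3 :=
        pow_le_pow_left₀ (by norm_num) e2.le 3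
      nlinarith [this]
    rw [Real.exp_neg, inv_eq_one_div]
    exact one_div_le_one_div_of_le (by norm_num) e3
  calc (n : ℝ) ^ 2 * Real.exp (-((s : ℝ) / (12 * ((q : ℝ) + 1) ^ 3)))
      ≤ (n : ℝ) ^ 2 * Real.exp (-(2 * Real.log n + 3)) :=
        mul_le_mul_of_nonneg_left h2 (by positivity)
    _ = Real.exp (-3) := h3
    _ ≤ 1 / 20 := h4

open Classical in
/-- C5 (uses C3, C4) -/
theorem good_prob {n q s : ℕ} (hn : 2 ≤ n) {f : Fin n → Fin n} (hs : Sid f)
    (hf : Function.Injective f) (C : Finset (Fin n × Fin n))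
    (h : 12 * ((q : ℝ) + 1) ^ 3 * (2 * Real.log n + 3) ≤ s) :
    (q + 1) ^ n ≤ 4 * (univ.filter (fun h : Fin n → Fin (q + 1) => Gd s f C h)).card := by
  let w : Fin n → ℕ := fun i => (C.filter (fun x => x.2 ≠ f x.1 ∧ x.1 = i)).card
  let B1 : Finset (Fin n → Fin (q + 1)) :=
    univ.filter (fun h : Fin n → Fin (q + 1) =>
      4 * (∑ _i : Fin n, 1) < (q + 1) * (∑ _i ∈ col h, 1))
  let B2 : Finset (Fin n → Fin (q + 1)) :=
    univ.filter (fun h : Fin n → Fin (q + 1) =>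
      4 * (∑ i : Fin n, w i) < (q + 1) * (∑ i ∈ col h, w i))
  let G : Finset (Fin n → Fin (q + 1)) :=
    univ.filter (fun h : Fin n → Fin (q + 1) => Gd s f C h)
  have m1 : 4 * B1.card ≤ (q + 1) ^ n := by
    have := markov (n := n) (q := q) (fun _ => 1)
    convert this using 3
  have m2 : 4 * B2.card ≤ (q + 1) ^ n := by
    have := markov (n := n) (q := q) w
    convert this using 3
  have w1 : ∀ S : Finset (Fin n),
      ∑ i ∈ S, w i = (C.filter (fun x => x.1 ∈ S ∧ x.2 ≠ f x.1)).card := by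
    intro S
    have := c5_fib f C S
    convert this using 2
  have w0 : ∑ i : Fin n, w i = (C.filter (fun x => x.2 ≠ f x.1)).card := by
    rw [w1 univ]
    congr 1
    ext x
    simp
  -- the third bad set
  let X : Finset (Fin n × Fin n) :=
    univ.filter (fun x => x.2 ≠ f x.1 ∧ s < (rep f x.1 x.2).card)
  let B : (Fin n × Fin n) → Finset (Fin n → Fin (q + 1)) := fun x =>
    univ.filter (fun h : Fin n → Fin (q + 1) => ¬ Cov f (col h) x.1 x.2)
  have hB : ((X.biUnion B).card : ℝ) ≤ ((q : ℝ) + 1) ^ n / 20 := by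
    have b1 : ((X.biUnion B).card : ℝ) ≤ ∑ x ∈ X, ((B x).card : ℝ) := by
      exact_mod_cast Finset.card_biUnion_le
    have b2 : ∑ x ∈ X, ((B x).card : ℝ) ≤
        ∑ x ∈ X, ((q : ℝ) + 1) ^ n * Real.exp (-((s : ℝ) / (12 * ((q : ℝ) + 1) ^ 3))) :=
      Finset.sum_le_sum fun x hx =>
        cov_prob hs hf (Finset.mem_filter.mp hx).2.1 (Finset.mem_filter.mp hx).2.2
    have b3 : (X.card : ℝ) ≤ (n : ℝ) ^ 2 := by
      have : X.card ≤ (univ : Finset (Fin n × Fin n)).card := Finset.card_le_univ _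
      rw [Finset.card_univ, Fintype.card_prod, Fintype.card_fin] at this
      have : (X.card : ℝ) ≤ ((n * n : ℕ) : ℝ) := by exact_mod_cast this
      push_cast at this
      nlinarith
    rw [Finset.sum_const, nsmul_eq_mul] at b2
    have b4 := c5_exp hn h
    have hQ : (0 : ℝ) < ((q : ℝ) + 1) ^ n := by positivity
    have hE : (0 : ℝ) < Real.exp (-((s : ℝ) / (12 * ((q : ℝ) + 1) ^ 3))) := Real.exp_pos _
    have b5 : (X.card : ℝ) * (((q : ℝ) + 1) ^ n *
        Real.exp (-((s : ℝ) / (12 * ((q : ℝ) + 1) ^ 3)))) ≤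
        ((q : ℝ) + 1) ^ n * ((n : ℝ) ^ 2 *
          Real.exp (-((s : ℝ) / (12 * ((q : ℝ) + 1) ^ 3)))) := by
      have := mul_le_mul_of_nonneg_right b3 (mul_pos hQ hE).le
      linarith
    have b6 := mul_le_mul_of_nonneg_left b4 hQ.le
    linarith
  -- covering
  have hcov : (univ : Finset (Fin n → Fin (q + 1))) ⊆ G ∪ (B1 ∪ (B2 ∪ X.biUnion B)) := by
    intro g _
    by_contra hcon
    rw [Finset.mem_union, Finset.mem_union, Finset.mem_union] at hcon
    push Not at hcon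
    obtain ⟨c0, c1, c2, c3⟩ := hcon
    have c1' : ¬ (4 * (∑ _i : Fin n, 1) < (q + 1) * (∑ _i ∈ col g, 1)) := fun hh =>
      c1 (Finset.mem_filter.mpr ⟨Finset.mem_univ _, hh⟩)
    have c2' : ¬ (4 * (∑ i : Fin n, w i) < (q + 1) * (∑ i ∈ col g, w i)) := fun hh =>
      c2 (Finset.mem_filter.mpr ⟨Finset.mem_univ _, hh⟩)
    rw [not_lt] at c1' c2'
    refine c0 (Finset.mem_filter.mpr ⟨Finset.mem_univ _, ?_, ?_, ?_⟩)
    · rw [← Finset.card_eq_sum_ones, ← Finset.card_eq_sum_ones, Finset.card_univ,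
        Fintype.card_fin] at c1'
      exact c1'
    · rw [w1, w0] at c2'
      convert c2' using 3
    · intro x hx hx2
      by_contra hc
      exact c3 (Finset.mem_biUnion.mpr ⟨x, Finset.mem_filter.mpr ⟨Finset.mem_univ _, hx, hx2⟩,
        Finset.mem_filter.mpr ⟨Finset.mem_univ _, hc⟩⟩)
  have hc1 := Finset.card_le_card hcov
  have hc2 := Finset.card_union_le G (B1 ∪ (B2 ∪ X.biUnion B))
  have hc3 := Finset.card_union_le B1 (B2 ∪ X.biUnion B)
  have hc4 := Finset.card_union_le B2 (X.biUnion B)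
  rw [Finset.card_univ, Fintype.card_fun, Fintype.card_fin, Fintype.card_fin] at hc1
  have hBn : 20 * (X.biUnion B).card ≤ (q + 1) ^ n := by
    have : (20 : ℝ) * ((X.biUnion B).card : ℝ) ≤ ((q : ℝ) + 1) ^ n := by linarith
    exact_mod_cast this
  have hG : (q + 1) ^ n ≤ 4 * G.card := by omega
  exact hG

end Pool.Agent.CSP
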