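import Mathlib
import Pool.Agent.Lib_helper89.CSP.Defs2
set_option autoImplicit false

namespace Pool.Agent.CSP

open Finset

open Classical in
theorem c6_step {P Ω : Type} [Fintype P] [Fintype Ω] (good : P → Ω → Prop)
    (h : ∀ p, Fintype.card Ω ≤ 4 * (univ.filter (fun ω => good p ω)).card) (hΩ : 0 < Fintype.card Ω)
    (Q : Finset P) : ∃ ω : Ω, Q.card ≤ 4 * (Q.filter (fun p => good p ω)).card := by
  by_contra hc
  push Not at hc
  have h1 : ∑ ω : Ω, 4 * (Q.filter (fun p => good p ω)).card < ∑ _ω : Ω, Q.card := by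
    apply Finset.sum_lt_sum_of_nonempty
    · rw [Finset.univ_nonempty_iff]
      exact Fintype.card_pos_iff.mp hΩ
    · intro ω _
      exact hc ω
  have h2 : ∑ ω : Ω, (Q.filter (fun p => good p ω)).card =
      ∑ p ∈ Q, (univ.filter (fun ω => good p ω)).card := by
    simp only [Finset.card_filter]
    exact Finset.sum_comm
  rw [← Finset.mul_sum, h2, Finset.sum_const, Finset.card_univ, smul_eq_mul, Finset.mul_sum] at h1
  have h3 : ∑ _p ∈ Q, Fintype.card Ω ≤ ∑ p ∈ Q, 4 * (univ.filter (fun ω => good p ω)).card :=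
    Finset.sum_le_sum fun p _ => h p
  rw [Finset.sum_const, smul_eq_mul] at h3
  have h4 : Q.card * Fintype.card Ω = Fintype.card Ω * Q.card := Nat.mul_comm _ _
  omega

open Classical in
theorem c6_ind {P Ω : Type} [Fintype P] [Fintype Ω] (good : P → Ω → Prop)
    (h : ∀ p, Fintype.card Ω ≤ 4 * (univ.filter (fun ω => good p ω)).card) (hΩ : 0 < Fintype.card Ω)
    (K : ℕ) : ∀ Q : Finset P, (Q.card : ℝ) * (3 / 4) ^ K < 1 →
      ∃ 𝓗 : Finset Ω, 𝓗.card ≤ K ∧ ∀ p ∈ Q, ∃ ω ∈ 𝓗, good p ω := by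
  induction K with
  | zero =>
    intro Q hQ
    rw [pow_zero, mul_one] at hQ
    have h1 : Q.card < 1 := by exact_mod_cast hQ
    have h2 : Q = ∅ := Finset.card_eq_zero.mp (by omega)
    refine ⟨∅, by simp, fun p hp => ?_⟩
    rw [h2] at hp
    simp at hp
  | succ K ih =>
    intro Q hQ
    obtain ⟨ω, hω⟩ := c6_step good h hΩ Q
    have h1 := Finset.card_filter_add_card_filter_not (s := Q) (fun p => good p ω)
    have h2 : ((Q.filter (fun p => ¬ good p ω)).card : ℝ) * (3 / 4) ^ K < 1 := by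
      have h3 : 4 * (Q.filter (fun p => ¬ good p ω)).card ≤ 3 * Q.card := by omega
      have h4 : (4 : ℝ) * (Q.filter (fun p => ¬ good p ω)).card ≤ 3 * Q.card := by exact_mod_cast h3
      have h5 : (0 : ℝ) < (3 / 4) ^ K := by positivity
      rw [pow_succ] at hQ
      nlinarith
    obtain ⟨H, hH1, hH2⟩ := ih _ h2
    refine ⟨insert ω H, le_trans (Finset.card_insert_le _ _) (by omega), fun p hp => ?_⟩
    by_cases hg : good p ω
    · exact ⟨ω, Finset.mem_insert_self _ _, hg⟩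
    · obtain ⟨ω', h6, h7⟩ := hH2 p (Finset.mem_filter.mpr ⟨hp, hg⟩)
      exact ⟨ω', Finset.mem_insert_of_mem h6, h7⟩

open Classical in
/-- C6 -/
theorem cover {P Ω : Type} [Fintype P] [Fintype Ω] (good : P → Ω → Prop)
    (h : ∀ p, Fintype.card Ω ≤ 4 * (univ.filter (fun ω => good p ω)).card) (hΩ : 0 < Fintype.card Ω)
    (K : ℕ) (hK : (Fintype.card P : ℝ) * (3 / 4) ^ K < 1) :
    ∃ 𝓗 : Finset Ω, 𝓗.card ≤ K ∧ ∀ p, ∃ ω ∈ 𝓗, good p ω := by
  obtain ⟨H, h1, h2⟩ := c6_ind good h hΩ K univ (by rw [Finset.card_univ]; exact hK)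
  exact ⟨H, h1, fun p => h2 p (mem_univ _)⟩

end Pool.Agent.CSP
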