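import Mathlib
import Pool.Agent.Lib_helper89.CSP.Defs2
import Pool.Agent.Lib_helper89.CSP.R.C5
import Pool.Agent.Lib_helper89.CSP.R.C6
set_option autoImplicit false

namespace Pool.Agent.CSP

open Finset

open Classical in
theorem c7_card (n : ℕ) :
    (Fintype.card ({f : Fin n → Fin n // Function.Bijective f ∧ Sid f} ×
      Finset (Fin n × Fin n)) : ℝ) ≤ 4 ^ (n ^ 2) := by
  have h1 : Fintype.card ({f : Fin n → Fin n // Function.Bijective f ∧ Sid f} ×
      Finset (Fin n × Fin n)) ≤ n ^ n * 2 ^ (n * n) := by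
    rw [Fintype.card_prod]
    apply Nat.mul_le_mul
    · refine (Fintype.card_subtype_le _).trans ?_
      simp
    · simp
  have h2 : n ^ n ≤ 2 ^ (n * n) := by
    rw [pow_mul]
    exact Nat.pow_le_pow_left (Nat.lt_two_pow_self).le n
  have h3 : n ^ n * 2 ^ (n * n) ≤ 4 ^ (n ^ 2) := by
    calc n ^ n * 2 ^ (n * n) ≤ 2 ^ (n * n) * 2 ^ (n * n) := Nat.mul_le_mul_right _ h2
      _ = 4 ^ (n ^ 2) := by
        rw [← mul_pow, sq]
        norm_num
  exact_mod_cast h1.trans h3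

/-- C7 (uses C5, C6) -/
theorem family {n q s : ℕ} (hn : 2 ≤ n)
    (h : 12 * ((q : ℝ) + 1) ^ 3 * (2 * Real.log n + 3) ≤ s) :
    ∃ 𝓗 : Finset (Fin n → Fin (q + 1)), 𝓗.card ≤ 5 * n ^ 2 ∧
      ∀ f : Fin n → Fin n, Function.Bijective f → Sid f → ∀ C : Finset (Fin n × Fin n),
        ∃ h ∈ 𝓗, Gd s f C h := by
  classical
  have key := cover (P := {f : Fin n → Fin n // Function.Bijective f ∧ Sid f} ×
      Finset (Fin n × Fin n)) (Ω := Fin n → Fin (q + 1))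
    (fun p ω => Gd s p.1.1 p.2 ω) ?_ ?_ (5 * n ^ 2) ?_
  · obtain ⟨H, h1, h2⟩ := key
    exact ⟨H, h1, fun f hf hs C => h2 ⟨⟨f, hf, hs⟩, C⟩⟩
  · rintro ⟨⟨f, hf, hs⟩, C⟩
    have h1 := good_prob hn hs hf.1 C h
    have h2 : Fintype.card (Fin n → Fin (q + 1)) = (q + 1) ^ n := by simp
    rw [h2]
    refine h1.trans (le_of_eq ?_)
    congr 2
  · have h2 : Fintype.card (Fin n → Fin (q + 1)) = (q + 1) ^ n := by simp
    rw [h2]
    positivity
  · have h1 := c7_card n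
    have h3 : (4 : ℝ) ^ (n ^ 2) * (3 / 4) ^ (5 * n ^ 2) = (243 / 256) ^ (n ^ 2) := by
      rw [pow_mul, ← mul_pow]
      norm_num
    have h4 : (243 / 256 : ℝ) ^ (n ^ 2) < 1 := by
      apply pow_lt_one₀ (by norm_num) (by norm_num)
      positivity
    calc (Fintype.card ({f : Fin n → Fin n // Function.Bijective f ∧ Sid f} ×
      Finset (Fin n × Fin n)) : ℝ) * (3 / 4) ^ (5 * n ^ 2)
        ≤ (4 : ℝ) ^ (n ^ 2) * (3 / 4) ^ (5 * n ^ 2) :=
          mul_le_mul_of_nonneg_right h1 (by positivity)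
      _ = (243 / 256) ^ (n ^ 2) := h3
      _ < 1 := h4

end Pool.Agent.CSP
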