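import Mathlib
import Pool.Agent.Lib_helper89.CSP.Defs2
set_option autoImplicit false

/-! Block B1 -/

namespace Pool.Agent.CSP

open Finset

theorem b1_sub_eq {n : ℕ} {b c b' c' : Fin n} (h : b - c = b' - c') : b + c' = b' + c := by
  have hn : NeZero n := ⟨by have := b.2; omega⟩
  have h2 : b - c + (c + c') = b' - c' + (c + c') := by rw [h]
  have h3 : b - c + (c + c') = b + c' := by
    rw [← add_assoc, sub_add_cancel]
  have h4 : b' - c' + (c + c') = b' + c := by
    rw [add_comm c c', ← add_assoc, sub_add_cancel]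
  rw [← h3, h2, h4]

theorem b1_key {n : ℕ} {f : Fin n → Fin n} (hf : Function.Bijective f) (hs : Sid f) {b c b' c' : Fin n}
    (d : ℤ) (hd : d ≠ 0) (h1 : ((f b : ℕ) : ℤ) - ((f c : ℕ) : ℤ) = d)
    (h2 : ((f b' : ℕ) : ℤ) - ((f c' : ℕ) : ℤ) = d) (h : b - c = b' - c') : b = b' ∧ c = c' := by
  have hbc : b ≠ c := by
    intro h0
    subst h0
    apply hd
    rw [← h1]
    ring
  have h3 : (f b : ℕ) + f c' = f b' + f c := by omega
  have h4 : b = b' := hs b c b' c' hbc (b1_sub_eq h) h3
  subst h4
  refine ⟨rfl, ?_⟩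
  apply hf.1
  apply Fin.ext
  omega

theorem miss_card {n : ℕ} {f : Fin n → Fin n} (hf : Function.Bijective f) (hs : Sid f) (d : ℤ)
    (hd : d ≠ 0) : (miss f d).card ≤ d.natAbs := by
  classical
  by_cases hm : n ≤ d.natAbs
  · calc (miss f d).card ≤ (univ : Finset (Fin n)).card := card_le_card (subset_univ _)
      _ = n := by simp
      _ ≤ d.natAbs := hm
  · have hm' : d.natAbs < n := by omega
    obtain ⟨g, hg⟩ := hf.2.hasRightInverse
    -- two dots in rows with difference d
    have hex : ∀ j : ℕ, j < n - d.natAbs → ∃ t : Fin n × Fin n,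
        ((f t.1 : ℕ) : ℤ) - ((f t.2 : ℕ) : ℤ) = d ∧ (j = min (f t.1 : ℕ) (f t.2 : ℕ)) := by
      intro j hj
      have hj1 : j < n := by omega
      have hj2 : j + d.natAbs < n := by omega
      rcases lt_or_gt_of_ne hd with hneg | hpos
      · refine ⟨(g ⟨j, hj1⟩, g ⟨j + d.natAbs, hj2⟩), ?_, ?_⟩
        · simp only [hg _]
          omega
        · simp only [hg _]
          omega
      · refine ⟨(g ⟨j + d.natAbs, hj2⟩, g ⟨j, hj1⟩), ?_, ?_⟩
        · simp only [hg _]
          omega
        · simp only [hg _]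
          omega
    have : Nonempty (Fin n × Fin n) := ⟨(⟨0, by omega⟩, ⟨0, by omega⟩)⟩
    choose! t ht1 ht2 using hex
    have hinj : Set.InjOn (fun j => (t j).1 - (t j).2) (range (n - d.natAbs) : Finset ℕ) := by
      intro j hj j' hj' h
      have hj0 : j < n - d.natAbs := by simpa using hj
      have hj0' : j' < n - d.natAbs := by simpa using hj'
      have h5 := b1_key hf hs d hd (ht1 j hj0) (ht1 j' hj0') h
      rw [ht2 j hj0, ht2 j' hj0', h5.1, h5.2]
    have hsub : (range (n - d.natAbs)).image (fun j => (t j).1 - (t j).2) ⊆ univ \ miss f d := by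
      intro k hk
      obtain ⟨j, hj, rfl⟩ := mem_image.1 hk
      have hj0 : j < n - d.natAbs := by simpa using hj
      have hn : NeZero n := ⟨by omega⟩
      refine mem_sdiff.2 ⟨mem_univ _, ?_⟩
      intro hmem
      have h6 := (mem_filter.1 hmem).2
      apply h6
      exact ⟨(t j).1, (t j).2, by rw [sub_add_cancel], ht1 j hj0⟩
    have hc := card_le_card hsub
    rw [card_image_of_injOn hinj, card_range, card_sdiff_of_subset (subset_univ _)] at hc
    have h7 : (univ : Finset (Fin n)).card = n := by simp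
    have h8 : (miss f d).card ≤ n := by
      calc (miss f d).card ≤ (univ : Finset (Fin n)).card := card_le_card (subset_univ _)
        _ = n := h7
    rw [h7] at hc
    omega

end Pool.Agent.CSP
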