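import Mathlib
import Pool.Agent.Lib_helper89.CSP.Defs2
set_option autoImplicit false

namespace Pool.Agent.CSP

open Finset

theorem collide {n : ℕ} {f : Fin n → Fin n} (hs : Sid f) {x x' : Fin n × Fin n} (hx : x ≠ x')
    {a a' b b' : Fin n} (h1 : dd f x a = dd f x' a') (h2 : x.1 - a = x'.1 - a')
    (h3 : dd f x b = dd f x' b') (h4 : x.1 - b = x'.1 - b') : a = b ∧ a' = b' := by
  haveI : NeZero n := ⟨by rintro rfl; exact Fin.elim0 a⟩
  unfold dd at h1 h3
  have e1 : x.1 + a' = x'.1 + a := sub_eq_sub_iff_add_eq_add.1 h2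
  have e2 : x.1 + b' = x'.1 + b := sub_eq_sub_iff_add_eq_add.1 h4
  have e3 : a + b' = b + a' := by
    have e : (x.1 + x'.1) + (a + b') = (x.1 + x'.1) + (b + a') := by
      calc (x.1 + x'.1) + (a + b') = (x'.1 + a) + (x.1 + b') := by abel
        _ = (x.1 + a') + (x'.1 + b) := by rw [e1, e2]
        _ = (x.1 + x'.1) + (b + a') := by abel
    exact add_left_cancel e
  have hne : a ≠ a' := by
    rintro rfl
    apply hx
    have f1 : x.1 = x'.1 := add_right_cancel e1
    have f2 : x.2 = x'.2 := by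
      apply Fin.ext
      omega
    exact Prod.ext f1 f2
  have e4 : (f a : ℕ) + f b' = f b + f a' := by omega
  have e5 : a = b := hs a a' b b' hne e3 e4
  refine ⟨e5, ?_⟩
  rw [e5] at e3
  exact (add_left_cancel e3).symm

theorem inc_miss {n : ℕ} {f : Fin n → Fin n} {s : ℕ} {x : Fin n × Fin n} {a : Fin n}
    (h : (x, a) ∈ inc f s) : x.1 - a ∈ miss f (dd f x a) := by
  classical
  haveI : NeZero n := ⟨by rintro rfl; exact Fin.elim0 a⟩
  unfold inc at h
  rw [Finset.mem_filter] at h
  obtain ⟨-, -, hlt, -, hrep⟩ := h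
  unfold miss
  rw [Finset.mem_filter]
  refine ⟨Finset.mem_univ _, ?_⟩
  rintro ⟨b, c, hb, hd⟩
  apply hrep
  unfold rep
  rw [Finset.mem_filter]
  refine ⟨Finset.mem_univ _, ?_, b, c, ?_, ?_⟩
  · intro hax
    have hax' : a = x.1 := hax
    have hbc : b = c := by
      rw [hb, hax', sub_self, zero_add]
    rw [hbc, sub_self] at hd
    change 10 * s < (dd f x a).natAbs at hlt
    rw [← hd] at hlt
    simp at hlt
  · rw [hb]
    abel
  · change (f a : ℕ) + f b = x.2 + f c
    unfold dd at hd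
    omega

end Pool.Agent.CSP
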