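import Mathlib
import Pool.Agent.Lib_helper89.CSP.Defs2
set_option autoImplicit false

namespace Pool.Agent.CSP

open Finset

theorem b3_block (A : ℕ) (hA : 1 ≤ A) : (1 : ℝ) / 2 ≤ ∑ d ∈ Ioc A (2 * A), 1 / (d : ℝ) := by
  have hA' : (0 : ℝ) < A := by exact_mod_cast hA
  have h1 : ∀ d ∈ Ioc A (2 * A), 1 / (2 * (A : ℝ)) ≤ 1 / (d : ℝ) := by
    intro d hd
    rw [Finset.mem_Ioc] at hd
    have hd0 : (0 : ℝ) < d := by
      have : 0 < d := by omega
      exact_mod_cast this
    have hd2 : (d : ℝ) ≤ 2 * A := by exact_mod_cast hd.2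
    exact one_div_le_one_div_of_le hd0 hd2
  have h2 := Finset.card_nsmul_le_sum _ _ _ h1
  rw [Nat.card_Ioc, nsmul_eq_mul] at h2
  have h3 : ((2 * A - A : ℕ) : ℝ) = A := by
    have : 2 * A - A = A := by omega
    rw [this]
  rw [h3] at h2
  have h4 : (A : ℝ) * (1 / (2 * (A : ℝ))) = 1 / 2 := by
    field_simp
  linarith

theorem HH_ge {s : ℕ} (hs : 1 ≤ s) : 3 ≤ HH s := by
  unfold HH
  have c : ∀ A B C : ℕ, A ≤ B → B ≤ C → ∑ d ∈ Ioc A C, 1 / (d : ℝ) =
      ∑ d ∈ Ioc A B, 1 / (d : ℝ) + ∑ d ∈ Ioc B C, 1 / (d : ℝ) := fun A B C h1 h2 =>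
    (Finset.sum_Ioc_consecutive _ h1 h2).symm
  have k1 := b3_block (10 * s) (by omega)
  have k2 := b3_block (20 * s) (by omega)
  have k3 := b3_block (40 * s) (by omega)
  have k4 := b3_block (80 * s) (by omega)
  have k5 := b3_block (160 * s) (by omega)
  have k6 := b3_block (320 * s) (by omega)
  have e1 : 2 * (10 * s) = 20 * s := by ring
  have e2 : 2 * (20 * s) = 40 * s := by ring
  have e3 : 2 * (40 * s) = 80 * s := by ring
  have e4 : 2 * (80 * s) = 160 * s := by ring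
  have e5 : 2 * (160 * s) = 320 * s := by ring
  have e6 : 2 * (320 * s) = 640 * s := by ring
  rw [e1] at k1
  rw [e2] at k2
  rw [e3] at k3
  rw [e4] at k4
  rw [e5] at k5
  rw [e6] at k6
  rw [c (10 * s) (20 * s) (640 * s) (by omega) (by omega),
    c (20 * s) (40 * s) (640 * s) (by omega) (by omega),
    c (40 * s) (80 * s) (640 * s) (by omega) (by omega),
    c (80 * s) (160 * s) (640 * s) (by omega) (by omega),
    c (160 * s) (320 * s) (640 * s) (by omega) (by omega)]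
  linarith

end Pool.Agent.CSP
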