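import Mathlib
import Pool.Agent.Lib_helper89.CSP.Defs2
import Pool.Agent.Lib_helper89.CSP.R.B3
set_option autoImplicit false

namespace Pool.Agent.CSP

open Finset

theorem b4_col {n : ℕ} {f : Fin n → Fin n} (hf : Function.Bijective f) {s : ℕ}
    (hn : 1280 * s + 1 ≤ n) (x : Fin n × Fin n) :
    ∃ α : ℕ → Fin n, (∀ d ∈ Ioc (10 * s) (640 * s), (dd f x (α d)).natAbs = d) := by
  have hx := x.2.2
  by_cases h : 640 * s ≤ (x.2 : ℕ)
  · have hex : ∀ d : ℕ, ∃ a : Fin n, (f a : ℕ) = (x.2 : ℕ) - d := by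
      intro d
      obtain ⟨a, ha⟩ := hf.surjective ⟨(x.2 : ℕ) - d, by omega⟩
      exact ⟨a, by rw [ha]⟩
    choose α hα using hex
    refine ⟨α, fun d hd => ?_⟩
    rw [mem_Ioc] at hd
    have := hα d
    unfold dd
    omega
  · have hex : ∀ d : ℕ, ∃ a : Fin n, (d ≤ 640 * s → (f a : ℕ) = (x.2 : ℕ) + d) := by
      intro d
      by_cases hd : d ≤ 640 * s
      · obtain ⟨a, ha⟩ := hf.surjective ⟨(x.2 : ℕ) + d, by omega⟩
        exact ⟨a, fun _ => by rw [ha]⟩
      · exact ⟨x.2, fun hd' => absurd hd' hd⟩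
    choose α hα using hex
    refine ⟨α, fun d hd => ?_⟩
    rw [mem_Ioc] at hd
    have := hα d hd.2
    unfold dd
    omega

/-- B4: the weight of the incidences of one cell (uses B3) -/
theorem inc_weight {n : ℕ} {f : Fin n → Fin n} (hf : Function.Bijective f) {s : ℕ} (hs : 1 ≤ s)
    (hn : 1280 * s + 1 ≤ n) {x : Fin n × Fin n} (hx : x ∈ bad f s) :
    HH s - 1 / 10 ≤ ∑ a ∈ univ.filter (fun a => (x, a) ∈ inc f s), 1 / ((dd f x a).natAbs : ℝ) := by
  classical
  obtain ⟨α, hα⟩ := b4_col hf hn x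
  set D := Ioc (10 * s) (640 * s) with hD
  have hinj : Set.InjOn α (D : Set ℕ) := by
    intro d hd d' hd' he
    have h1 := hα d (mem_coe.1 hd)
    have h2 := hα d' (mem_coe.1 hd')
    rw [he] at h1
    exact h1.symm.trans h2
  have hrep : (rep f x.1 x.2).card ≤ s := by
    have := hx
    unfold bad at this
    exact (mem_filter.1 this).2
  set D1 := D.filter (fun d => α d ∈ rep f x.1 x.2) with hD1
  set D0 := D.filter (fun d => ¬ α d ∈ rep f x.1 x.2) with hD0
  have hsplit : HH s = ∑ d ∈ D1, 1 / (d : ℝ) + ∑ d ∈ D0, 1 / (d : ℝ) := by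
    unfold HH
    exact (sum_filter_add_sum_filter_not D (fun d => α d ∈ rep f x.1 x.2) _).symm
  have hs0 : (0 : ℝ) < s := by exact_mod_cast hs
  have hc1 : D1.card ≤ s := by
    refine le_trans ?_ hrep
    refine card_le_card_of_injOn α (fun d hd => ?_) (hinj.mono ?_)
    · exact (mem_filter.1 (mem_coe.1 hd)).2
    · intro d hd
      exact mem_coe.2 (mem_filter.1 (mem_coe.1 hd)).1
  have h1 : ∑ d ∈ D1, 1 / (d : ℝ) ≤ 1 / 10 := by
    have h2 : ∀ d ∈ D1, 1 / (d : ℝ) ≤ 1 / (10 * (s : ℝ)) := by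
      intro d hd
      have hd' := (mem_Ioc.1 (mem_filter.1 hd).1).1
      have h3 : (10 * (s : ℝ)) ≤ d := by exact_mod_cast hd'.le
      exact one_div_le_one_div_of_le (by positivity) h3
    refine (sum_le_card_nsmul _ _ _ h2).trans ?_
    rw [nsmul_eq_mul]
    have h4 : (D1.card : ℝ) ≤ s := by exact_mod_cast hc1
    calc (D1.card : ℝ) * (1 / (10 * (s : ℝ))) ≤ s * (1 / (10 * (s : ℝ))) :=
          mul_le_mul_of_nonneg_right h4 (by positivity)
      _ = 1 / 10 := by field_simp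
  have h2 : ∑ d ∈ D0, 1 / (d : ℝ) ≤
      ∑ a ∈ univ.filter (fun a => (x, a) ∈ inc f s), 1 / ((dd f x a).natAbs : ℝ) := by
    have h3 : ∑ d ∈ D0, 1 / (d : ℝ) = ∑ a ∈ D0.image α, 1 / ((dd f x a).natAbs : ℝ) := by
      rw [sum_image]
      · refine sum_congr rfl fun d hd => ?_
        rw [hα d (mem_filter.1 hd).1]
      · intro d hd d' hd' he
        exact hinj (mem_coe.2 (mem_filter.1 (mem_coe.1 hd)).1)
          (mem_coe.2 (mem_filter.1 (mem_coe.1 hd')).1) he
    rw [h3]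
    refine sum_le_sum_of_subset_of_nonneg ?_ fun _ _ _ => by positivity
    intro a ha
    obtain ⟨d, hd, rfl⟩ := mem_image.1 ha
    obtain ⟨hdD, hdr⟩ := mem_filter.1 hd
    have h5 := hα d hdD
    rw [hD, mem_Ioc] at hdD
    refine mem_filter.2 ⟨mem_univ _, ?_⟩
    unfold inc
    refine mem_filter.2 ⟨mem_univ _, hx, ?_, ?_, hdr⟩
    · show 10 * s < (dd f x (α d)).natAbs
      omega
    · show (dd f x (α d)).natAbs ≤ 640 * s
      omega
  linarith

end Pool.Agent.CSP
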