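import Mathlib
import Pool.Agent.Lib_helper89.CSP.Defs2
set_option autoImplicit false

namespace Pool.Agent.CSP

open Finset

/-- B5: the number of incidences -/
theorem inc_card {n : ℕ} {f : Fin n → Fin n} (hf : Function.Bijective f) (s : ℕ) :
    (inc f s).card ≤ (bad f s).card * (1260 * s) := by
  classical
  have hD : ((Finset.Ioc (10 * (s : ℤ)) (640 * s)) ∪ (Finset.Ico (-(640 * (s : ℤ))) (-(10 * s)))).card
      ≤ 1260 * s := by
    refine le_trans (card_union_le _ _) ?_
    rw [Int.card_Ioc, Int.card_Ico]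
    omega
  have h1 : (inc f s).card ≤ ((bad f s) ×ˢ ((Finset.Ioc (10 * (s : ℤ)) (640 * s)) ∪
      (Finset.Ico (-(640 * (s : ℤ))) (-(10 * s))))).card := by
    apply card_le_card_of_injOn (fun t => (t.1, dd f t.1 t.2))
    · intro t ht
      have ht' := (mem_filter.mp (mem_coe.mp ht)).2
      rw [mem_coe, mem_product]
      refine ⟨ht'.1, ?_⟩
      rw [mem_union, mem_Ioc, mem_Ico]
      have h2 := ht'.2.1
      have h3 := ht'.2.2.1
      simp only
      omega
    · intro t ht t' ht' he
      simp only [Prod.mk.injEq] at he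
      obtain ⟨e1, e2⟩ := he
      rw [e1] at e2
      unfold dd at e2
      have e3 : (f t.2 : ℕ) = f t'.2 := by omega
      exact Prod.ext e1 (hf.1 (Fin.ext e3))
  rw [card_product] at h1
  exact le_trans h1 (Nat.mul_le_mul_left _ hD)

end Pool.Agent.CSP
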