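import Mathlib
import Pool.Agent.Lib_helper89.CSP.Defs2
set_option autoImplicit false

namespace Pool.Agent.CSP

open Finset

theorem b6_card {T K : Type} [DecidableEq K] (S : Finset T) (κ : T → K) :
    ((S ×ˢ S).filter (fun t => κ t.1 = κ t.2)).card =
      ∑ k ∈ S.image κ, (S.filter (fun t => κ t = k)).card ^ 2 := by
  have h : ∀ t ∈ (S ×ˢ S).filter (fun t => κ t.1 = κ t.2), κ t.1 ∈ S.image κ := by
    intro t ht
    rw [Finset.mem_filter, Finset.mem_product] at ht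
    exact Finset.mem_image_of_mem κ ht.1.1
  rw [Finset.card_eq_sum_card_fiberwise h]
  refine Finset.sum_congr rfl (fun k _ => ?_)
  have e : ((S ×ˢ S).filter (fun t => κ t.1 = κ t.2)).filter (fun t => κ t.1 = k) =
      (S.filter (fun t => κ t = k)) ×ˢ (S.filter (fun t => κ t = k)) := by
    ext t
    simp only [Finset.mem_filter, Finset.mem_product]
    constructor
    · rintro ⟨⟨⟨h1, h2⟩, h3⟩, h4⟩
      exact ⟨⟨h1, h4⟩, ⟨h2, h3.symm.trans h4⟩⟩
    · rintro ⟨⟨h1, h4⟩, ⟨h2, h5⟩⟩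
      exact ⟨⟨⟨h1, h2⟩, h4.trans h5.symm⟩, h4⟩
  rw [e, Finset.card_product, sq]

theorem cs_fib {T K : Type} [DecidableEq K] (S : Finset T) (κ : T → K) (ω : K → ℝ) :
    (∑ t ∈ S, ω (κ t)) ^ 2 ≤ (∑ k ∈ S.image κ, ω k ^ 2) *
      (((S ×ˢ S).filter (fun t => κ t.1 = κ t.2)).card : ℝ) := by
  have h1 : ∑ t ∈ S, ω (κ t) =
      ∑ k ∈ S.image κ, ω k * ((S.filter (fun t => κ t = k)).card : ℝ) := by
    rw [← Finset.sum_fiberwise_of_maps_to (fun t ht => Finset.mem_image_of_mem κ ht)]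
    refine Finset.sum_congr rfl (fun k _ => ?_)
    rw [Finset.sum_congr rfl (g := fun _ => ω k)
      (fun t ht => by rw [(Finset.mem_filter.mp ht).2]), Finset.sum_const, nsmul_eq_mul, mul_comm]
  rw [h1, b6_card, Nat.cast_sum]
  refine (Finset.sum_mul_sq_le_sq_mul_sq _ _ _).trans (le_of_eq ?_)
  congr 1
  refine Finset.sum_congr rfl (fun k _ => ?_)
  rw [Nat.cast_pow]

end Pool.Agent.CSP
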