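import Mathlib
import Pool.Agent.Lib_helper89.CSP.Defs2
import Pool.Agent.Lib_helper89.CSP.R.B1
import Pool.Agent.Lib_helper89.CSP.R.B2
import Pool.Agent.Lib_helper89.CSP.R.B3
import Pool.Agent.Lib_helper89.CSP.R.B4
import Pool.Agent.Lib_helper89.CSP.R.B5
import Pool.Agent.Lib_helper89.CSP.R.B6
set_option autoImplicit false

namespace Pool.Agent.CSP

open Finset

/-- the differences of rows -/
theorem b7_sumD (s : ℕ) :
    ∑ d ∈ ((Icc (-(640 * s : ℤ)) (640 * s)).filter
      (fun d => 10 * s < d.natAbs)), 1 / (d.natAbs : ℝ) ≤ 2 * HH s := by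
  have hsub : ((Icc (-(640 * s : ℤ)) (640 * s)).filter (fun d => 10 * s < d.natAbs)) ⊆
      ((Ioc (10 * s) (640 * s)).image (fun d : ℕ => (d : ℤ))) ∪
      ((Ioc (10 * s) (640 * s)).image (fun d : ℕ => -(d : ℤ))) := by
    intro d hd
    rw [mem_filter, mem_Icc] at hd
    obtain ⟨⟨h1, h2⟩, h3⟩ := hd
    rw [mem_union, mem_image, mem_image]
    rcases le_or_gt 0 d with h | h
    · left
      refine ⟨d.natAbs, ?_, ?_⟩
      · rw [mem_Ioc]
        constructor
        · exact h3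
        · omega
      · exact Int.natAbs_of_nonneg h
    · right
      refine ⟨d.natAbs, ?_, ?_⟩
      · rw [mem_Ioc]
        constructor
        · exact h3
        · omega
      · omega
  refine le_trans (sum_le_sum_of_subset_of_nonneg hsub (fun d _ _ => by positivity)) ?_
  have hnn : ∀ d ∈ ((Ioc (10 * s) (640 * s)).image (fun d : ℕ => (d : ℤ))) ∩
      ((Ioc (10 * s) (640 * s)).image (fun d : ℕ => -(d : ℤ))), 0 ≤ 1 / (d.natAbs : ℝ) :=
    fun d _ => by positivity
  have h1 := sum_union_inter (s₁ := ((Ioc (10 * s) (640 * s)).image (fun d : ℕ => (d : ℤ))))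
    (s₂ := ((Ioc (10 * s) (640 * s)).image (fun d : ℕ => -(d : ℤ))))
    (f := fun d : ℤ => 1 / (d.natAbs : ℝ))
  have h2 := sum_nonneg hnn
  have h3 : ∑ d ∈ ((Ioc (10 * s) (640 * s)).image (fun d : ℕ => (d : ℤ))),
      1 / (d.natAbs : ℝ) = HH s := by
    rw [sum_image]
    · rfl
    · intro a _ b _ hab
      exact Int.ofNat_inj.mp hab
  have h4 : ∑ d ∈ ((Ioc (10 * s) (640 * s)).image (fun d : ℕ => -(d : ℤ))),
      1 / (d.natAbs : ℝ) = HH s := by
    rw [sum_image]
    · unfold HH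
      apply sum_congr rfl
      intro d _
      rw [Int.natAbs_neg, Int.natAbs_natCast]
    · intro a _ b _ hab
      have : (a : ℤ) = b := by simpa using hab
      exact Int.ofNat_inj.mp this
  linarith

theorem b7_pairs {n : ℕ} {f : Fin n → Fin n} (hs : Sid f) (s : ℕ)
    (κ : (Fin n × Fin n) × Fin n → ℤ × Fin n)
    (hκ : κ = fun t => (dd f t.1 t.2, t.1.1 - t.2)) :
    (((inc f s ×ˢ inc f s).filter (fun t => κ t.1 = κ t.2)).card) ≤
      (inc f s).card + (bad f s).card ^ 2 := by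
  classical
  have hsplit : ((inc f s ×ˢ inc f s).filter (fun t => κ t.1 = κ t.2)) ⊆
      ((inc f s).image (fun t => (t, t))) ∪
      ((inc f s ×ˢ inc f s).filter (fun t => κ t.1 = κ t.2 ∧ t.1.1 ≠ t.2.1)) := by
    intro t ht
    rw [mem_filter, mem_product] at ht
    obtain ⟨⟨h1, h2⟩, h3⟩ := ht
    rw [mem_union]
    by_cases hx : t.1.1 = t.2.1
    · left
      rw [mem_image]
      refine ⟨t.1, h1, ?_⟩
      rw [hκ] at h3
      have h4 : t.1.1.1 - t.1.2 = t.2.1.1 - t.2.2 := (Prod.ext_iff.mp h3).2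
      rw [hx] at h4
      have h5 : t.1.2 = t.2.2 := by
        have : NeZero n := ⟨fun h => by subst h; exact t.1.2.elim0⟩
        exact sub_right_inj.mp h4
      have h6 : t.1 = t.2 := Prod.ext hx h5
      exact Prod.ext rfl h6
    · right
      rw [mem_filter, mem_product]
      exact ⟨⟨h1, h2⟩, h3, hx⟩
  refine le_trans (card_le_card hsplit) (le_trans (card_union_le _ _) ?_)
  refine Nat.add_le_add card_image_le ?_
  have hmaps : ((inc f s ×ˢ inc f s).filter (fun t => κ t.1 = κ t.2 ∧ t.1.1 ≠ t.2.1)).card ≤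
      (bad f s ×ˢ bad f s).card := by
    apply card_le_card_of_injOn (fun t => (t.1.1, t.2.1))
    · intro t ht
      rw [mem_coe, mem_filter, mem_product] at ht
      rw [mem_coe, mem_product]
      have h1 : t.1 ∈ inc f s := ht.1.1
      have h2 : t.2 ∈ inc f s := ht.1.2
      unfold inc at h1 h2
      rw [mem_filter] at h1 h2
      exact ⟨h1.2.1, h2.2.1⟩
    · intro t ht t' ht' htt
      rw [mem_coe, mem_filter, mem_product] at ht ht'
      have e1 : t.1.1 = t'.1.1 := (Prod.ext_iff.mp htt).1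
      have e2 : t.2.1 = t'.2.1 := (Prod.ext_iff.mp htt).2
      have k1 := ht.2.1
      have k2 := ht'.2.1
      rw [hκ] at k1 k2
      have k11 : dd f t.1.1 t.1.2 = dd f t.2.1 t.2.2 := (Prod.ext_iff.mp k1).1
      have k12 : t.1.1.1 - t.1.2 = t.2.1.1 - t.2.2 := (Prod.ext_iff.mp k1).2
      have k21 : dd f t'.1.1 t'.1.2 = dd f t'.2.1 t'.2.2 := (Prod.ext_iff.mp k2).1
      have k22 : t'.1.1.1 - t'.1.2 = t'.2.1.1 - t'.2.2 := (Prod.ext_iff.mp k2).2
      rw [← e1, ← e2] at k21 k22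
      have hc := collide hs ht.2.2 k11 k12 k21 k22
      have e3 : t.1 = t'.1 := Prod.ext e1 hc.1
      have e4 : t.2 = t'.2 := Prod.ext e2 hc.2
      exact Prod.ext e3 e4
  rw [card_product] at hmaps
  rw [pow_two]
  exact hmaps

theorem b7_image {n : ℕ} {f : Fin n → Fin n} (hf : Function.Bijective f) (hs : Sid f) (s : ℕ)
    (κ : (Fin n × Fin n) × Fin n → ℤ × Fin n)
    (hκ : κ = fun t => (dd f t.1 t.2, t.1.1 - t.2)) :
    ∑ k ∈ (inc f s).image κ, (1 / (k.1.natAbs : ℝ)) ^ 2 ≤ 2 * HH s := by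
  classical
  refine le_trans ?_ (b7_sumD s)
  set D := ((Icc (-(640 * s : ℤ)) (640 * s)).filter (fun d => 10 * s < d.natAbs)) with hD
  have hsub : (inc f s).image κ ⊆ D.biUnion (fun d => (miss f d).image (fun k => (d, k))) := by
    intro k hk
    rw [mem_image] at hk
    obtain ⟨t, ht, rfl⟩ := hk
    have ht' := ht
    unfold inc at ht'
    rw [mem_filter] at ht'
    obtain ⟨_, _, h1, h2, _⟩ := ht'
    rw [mem_biUnion]
    refine ⟨dd f t.1 t.2, ?_, ?_⟩
    · rw [hD, mem_filter, mem_Icc]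
      refine ⟨⟨?_, ?_⟩, h1⟩
      · omega
      · omega
    · rw [mem_image, hκ]
      exact ⟨t.1.1 - t.2, inc_miss ht, rfl⟩
  refine le_trans (sum_le_sum_of_subset_of_nonneg hsub (fun k _ _ => by positivity)) ?_
  rw [sum_biUnion]
  · apply sum_le_sum
    intro d hd
    rw [hD, mem_filter] at hd
    rw [sum_image (fun a _ b _ hab => (Prod.ext_iff.mp hab).2)]
    have hcst : ∑ k ∈ miss f d, (1 / ((d, k).1.natAbs : ℝ)) ^ 2 =
        ∑ _k ∈ miss f d, (1 / (d.natAbs : ℝ)) ^ 2 := rfl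
    rw [hcst, sum_const, nsmul_eq_mul]
    have hpos : 0 < (d.natAbs : ℝ) := by
      have : 0 < d.natAbs := by omega
      exact_mod_cast this
    have hd0 : d ≠ 0 := by
      intro h
      rw [h] at hd
      simp at hd
    have hm : ((miss f d).card : ℝ) ≤ (d.natAbs : ℝ) := by
      exact_mod_cast miss_card hf hs d hd0
    have : ((miss f d).card : ℝ) * (1 / (d.natAbs : ℝ)) ^ 2 ≤
        (d.natAbs : ℝ) * (1 / (d.natAbs : ℝ)) ^ 2 :=
      mul_le_mul_of_nonneg_right hm (by positivity)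
    refine le_trans this (le_of_eq ?_)
    field_simp
  · intro d _ d' _ hdd
    rw [Function.onFun, Finset.disjoint_left]
    intro k hk hk'
    rw [mem_image] at hk hk'
    obtain ⟨a, _, ha⟩ := hk
    obtain ⟨b, _, hb⟩ := hk'
    apply hdd
    have h1 := (Prod.ext_iff.mp ha).1
    have h2 := (Prod.ext_iff.mp hb).1
    exact h1.trans h2.symm

theorem b7_lower {n : ℕ} {f : Fin n → Fin n} (hf : Function.Bijective f) {s : ℕ}
    (h1 : 1 ≤ s) (hn : 1280 * s + 1 ≤ n) :
    ((bad f s).card : ℝ) * (HH s - 1 / 10) ≤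
      ∑ t ∈ inc f s, 1 / ((dd f t.1 t.2).natAbs : ℝ) := by
  classical
  have hfib : ∑ t ∈ inc f s, 1 / ((dd f t.1 t.2).natAbs : ℝ) =
      ∑ x ∈ bad f s, ∑ t ∈ (inc f s).filter (fun t => t.1 = x),
        1 / ((dd f t.1 t.2).natAbs : ℝ) := by
    symm
    apply sum_fiberwise_of_maps_to
    intro t ht
    unfold inc at ht
    rw [mem_filter] at ht
    exact ht.2.1
  rw [hfib, ← nsmul_eq_mul]
  apply card_nsmul_le_sum
  intro x hx
  refine le_trans (inc_weight hf h1 hn hx) (le_of_eq ?_)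
  symm
  refine sum_bij' (fun t _ => t.2) (fun a _ => (x, a)) ?_ ?_ ?_ ?_ ?_
  · intro t ht
    rw [mem_filter] at ht ⊢
    refine ⟨mem_univ _, ?_⟩
    have : (x, t.2) = t := Prod.ext ht.2.symm rfl
    rw [this]
    exact ht.1
  · intro a ha
    rw [mem_filter] at ha ⊢
    exact ⟨ha.2, rfl⟩
  · intro t ht
    rw [mem_filter] at ht
    exact Prod.ext ht.2.symm rfl
  · intro a _
    rfl
  · intro t ht
    rw [mem_filter] at ht
    rw [ht.2]

theorem bad_card {n : ℕ} {f : Fin n → Fin n} (hf : Function.Bijective f) (hs : Sid f) {s : ℕ}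
    (h1 : 1 ≤ s) (hn : 1280 * s + 1 ≤ n) : (bad f s).card ≤ 3150 * s := by
  classical
  set κ : (Fin n × Fin n) × Fin n → ℤ × Fin n := fun t => (dd f t.1 t.2, t.1.1 - t.2) with hκ
  have hcs := cs_fib (inc f s) κ (fun k => 1 / (k.1.natAbs : ℝ))
  have hlow := b7_lower hf h1 hn
  have himg := b7_image hf hs s κ hκ
  have hpairs := b7_pairs hs s κ hκ
  have hinc := inc_card hf s
  have hH := HH_ge h1
  set M : ℝ := ((bad f s).card : ℝ) with hM
  set H : ℝ := HH s with hHdef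
  have hM0 : 0 ≤ M := by rw [hM]; positivity
  have hsum : ∑ t ∈ inc f s, (fun k : ℤ × Fin n => 1 / (k.1.natAbs : ℝ)) (κ t) =
      ∑ t ∈ inc f s, 1 / ((dd f t.1 t.2).natAbs : ℝ) := rfl
  rw [hsum] at hcs
  have hP : ((((inc f s ×ˢ inc f s).filter (fun t => κ t.1 = κ t.2)).card : ℕ) : ℝ) ≤
      M * (1260 * s) + M ^ 2 := by
    have h2 : (((inc f s ×ˢ inc f s).filter (fun t => κ t.1 = κ t.2)).card) ≤
        (bad f s).card * (1260 * s) + (bad f s).card ^ 2 := by omega
    have h3 : ((((inc f s ×ˢ inc f s).filter (fun t => κ t.1 = κ t.2)).card : ℕ) : ℝ) ≤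
      (((bad f s).card * (1260 * s) + (bad f s).card ^ 2 : ℕ) : ℝ) := by exact_mod_cast h2
    push_cast at h3
    exact h3
  have hs0 : (1 : ℝ) ≤ s := by exact_mod_cast h1
  have hleft : (M * (H - 1 / 10)) ^ 2 ≤ 2 * H * (M * (1260 * s) + M ^ 2) := by
    refine le_trans (pow_le_pow_left₀ (mul_nonneg hM0 (by linarith)) hlow 2) ?_
    refine le_trans hcs ?_
    apply mul_le_mul himg hP (by positivity) (by linarith)
  have hfin : M ≤ 3150 * s := by
    by_contra hcon
    push Not at hcon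
    have hMpos : 0 < M := by
      have : (0 : ℝ) ≤ 3150 * s := by positivity
      linarith
    have h4 : M * (H - 1 / 10) ^ 2 ≤ 2 * H * (1260 * s + M) := by
      have h5 : M * (M * (H - 1 / 10) ^ 2) ≤ M * (2 * H * (1260 * s + M)) := by nlinarith
      exact le_of_mul_le_mul_left h5 hMpos
    have h6 : (4 / 5 : ℝ) * H ≤ (H - 1 / 10) ^ 2 - 2 * H := by nlinarith
    have h7 : M * ((4 / 5 : ℝ) * H) ≤ M * ((H - 1 / 10) ^ 2 - 2 * H) :=
      mul_le_mul_of_nonneg_left h6 hM0
    have h8 : M * ((4 / 5 : ℝ) * H) ≤ 2 * H * (1260 * s) := by nlinarith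
    have h9 : H * (M * (4 / 5)) ≤ H * (2520 * s) := by nlinarith
    have h10 : M * (4 / 5) ≤ 2520 * s := le_of_mul_le_mul_left h9 (by linarith)
    linarith
  rw [hM] at hfin
  exact_mod_cast hfin

end Pool.Agent.CSP
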