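import Mathlib
import Pool.Agent.Lib_helper89.CSP.Defs2
import Pool.Agent.Lib_helper89.CSP.R.A2
import Pool.Agent.Lib_helper89.CSP.R.B7
set_option autoImplicit false

namespace Pool.Agent.CSP

open Finset

theorem d2_cov {n : ℕ} {f φ : Fin n → Fin n} {J : Finset (Fin n)} (hφ : ∀ i ∈ J, φ i = f i)
    (i y : Fin n) : Cov φ J i y ↔ Cov f J i y := by
  constructor
  · rintro ⟨a, ha, b, hb, c, hc, h1, h2, h3, h4⟩
    rw [hφ a ha, hφ b hb, hφ c hc] at h4
    exact ⟨a, ha, b, hb, c, hc, h1, h2, h3, h4⟩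
  · rintro ⟨a, ha, b, hb, c, hc, h1, h2, h3, h4⟩
    rw [← hφ a ha, ← hφ b hb, ← hφ c hc] at h4
    exact ⟨a, ha, b, hb, c, hc, h1, h2, h3, h4⟩

/-- D2 (uses A2: not_cov, B7) -/
theorem rest_card {n q s : ℕ} {f φ : Fin n → Fin n} (hf : Function.Bijective f) (hs : Sid f)
    (h1 : 1 ≤ s) (hn : 1280 * s + 1 ≤ n) (C : Finset (Fin n × Fin n))
    {h : Fin n → Fin (q + 1)} (hg : Gd s f C h) (hφ : ∀ i ∈ col h, φ i = f i) :
    (rest C (col h) φ).card ≤ n + 3150 * s := by
  classical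
  have hsub : rest C (col h) φ ⊆
      (univ.image fun i : Fin n => (i, f i)) ∪ bad f s := by
    intro x hx
    unfold rest at hx
    obtain ⟨_, _, hx3⟩ := mem_filter.1 hx
    rw [d2_cov hφ] at hx3
    by_cases hxf : x.2 = f x.1
    · refine mem_union_left _ (mem_image.2 ⟨x.1, mem_univ _, ?_⟩)
      rw [← hxf]
    · refine mem_union_right _ ?_
      unfold bad
      rw [mem_filter]
      refine ⟨mem_univ _, ?_⟩
      by_contra hlt
      exact hx3 (hg.2.2 x hxf (not_le.1 hlt))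
  refine (card_le_card hsub).trans ((card_union_le _ _).trans ?_)
  have h2 : (univ.image fun i : Fin n => (i, f i)).card ≤ n :=
    card_image_le.trans (by rw [card_univ, Fintype.card_fin])
  have h3 := bad_card hf hs h1 hn
  omega

theorem rest_mem {n : ℕ} {f φ : Fin n → Fin n} (hs : Sid f) (C : Finset (Fin n × Fin n))
    (hC : ∀ i, (i, f i) ∈ C) (J : Finset (Fin n)) (hφ : ∀ i ∈ J, φ i = f i) (i : Fin n) :
    (i, f i) ∈ rest C J φ := by
  classical
  unfold rest
  rw [mem_filter]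
  refine ⟨hC i, fun hi => (hφ i hi).symm, ?_⟩
  rw [d2_cov hφ]
  exact not_cov hs J i

end Pool.Agent.CSP
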