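import Mathlib
import Pool.Agent.Lib_helper89.CSP.Defs2
set_option autoImplicit false

namespace Pool.Agent.CSP

open Finset

open Classical in
theorem d3_eq {n : ℕ} [NeZero n] (C : Finset (Fin n × Fin n)) (J : Finset (Fin n)) :
    phis C J = Fintype.piFinset (fun i : Fin n =>
      if i ∈ J then univ.filter (fun y : Fin n => (i, y) ∈ C) else {0}) := by
  ext φ
  simp only [phis, mem_filter, mem_univ, true_and, Fintype.mem_piFinset]
  constructor
  · rintro ⟨h1, h2⟩ i
    by_cases hi : i ∈ J
    · rw [if_pos hi, mem_filter]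
      exact ⟨mem_univ _, h1 i hi⟩
    · rw [if_neg hi, mem_singleton]
      exact h2 i hi
  · intro h
    refine ⟨fun i hi => ?_, fun i hi => ?_⟩
    · have := h i
      rw [if_pos hi, mem_filter] at this
      exact this.2
    · have := h i
      rw [if_neg hi, mem_singleton] at this
      exact this

open Classical in
theorem d3_card {n : ℕ} [NeZero n] (C : Finset (Fin n × Fin n)) (J : Finset (Fin n)) :
    (phis C J).card = ∏ i ∈ J, (univ.filter (fun y : Fin n => (i, y) ∈ C)).card := by
  rw [d3_eq, Fintype.card_piFinset]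
  rw [← Finset.prod_subset (subset_univ J)]
  · refine prod_congr rfl fun i hi => ?_
    rw [if_pos hi]
  · intro i _ hi
    rw [if_neg hi, card_singleton]

open Classical in
theorem d3_sum {n : ℕ} (C : Finset (Fin n × Fin n)) (J : Finset (Fin n)) :
    (C.filter (fun x => x.1 ∈ J)).card =
      ∑ i ∈ J, (univ.filter (fun y : Fin n => (i, y) ∈ C)).card := by
  have h0 : Set.MapsTo (fun x : Fin n × Fin n => x.1)
      (C.filter (fun x => x.1 ∈ J) : Finset (Fin n × Fin n)) (J : Set (Fin n)) := by
    intro x hx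
    exact (mem_filter.1 (mem_coe.1 hx)).2
  rw [card_eq_sum_card_fiberwise h0]
  refine sum_congr rfl fun i hi => ?_
  refine card_bij (fun x _ => x.2) ?_ ?_ ?_
  · intro x hx
    simp only [mem_filter, mem_univ, true_and] at hx ⊢
    obtain ⟨⟨h1, _⟩, h2⟩ := hx
    rw [← h2]
    exact h1
  · intro x hx y hy hxy
    simp only [mem_filter] at hx hy
    exact Prod.ext (hx.2.trans hy.2.symm) hxy
  · intro y hy
    simp only [mem_filter, mem_univ, true_and] at hy
    exact ⟨(i, y), by simp [hy, hi], rfl⟩

theorem d3_pow {ι : Type} (J : Finset ι) (c : ι → ℕ) :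
    ∏ i ∈ J, c i ≤ 2 ^ ((∑ i ∈ J, c i) - J.card) := by
  classical
  by_cases h : ∃ i ∈ J, c i = 0
  · obtain ⟨i, hi, h0⟩ := h
    rw [prod_eq_zero hi h0]
    exact Nat.zero_le _
  · push Not at h
    have h1 : ∑ i ∈ J, c i = (∑ i ∈ J, (c i - 1)) + J.card := by
      rw [card_eq_sum_ones, ← sum_add_distrib]
      refine sum_congr rfl fun i hi => ?_
      have := h i hi
      omega
    rw [h1, Nat.add_sub_cancel, ← prod_pow_eq_pow_sum]
    refine prod_le_prod' fun i hi => ?_
    have h2 := h i hi
    have h3 : c i = (c i - 1) + 1 := by omega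
    have h4 : (c i - 1) < 2 ^ (c i - 1) := Nat.lt_two_pow_self
    omega

/-- D3 -/
theorem phis_card {n : ℕ} [NeZero n] (C : Finset (Fin n × Fin n)) (J : Finset (Fin n)) :
    (phis C J).card ≤ 2 ^ ((C.filter (fun x => x.1 ∈ J)).card - J.card) ∧
      (phis C J).card ≤ n ^ J.card := by
  classical
  have h1 := d3_card C J
  have h2 := d3_sum C J
  refine ⟨?_, ?_⟩
  · rw [h1, h2]
    exact d3_pow J _
  · rw [h1]
    refine (prod_le_pow_card J _ n fun i _ => ?_)
    exact (card_le_univ _).trans (by simp)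

end Pool.Agent.CSP
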