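import Mathlib
import Pool.Agent.Lib_helper89.CSP.Defs2
import Pool.Agent.Lib_helper89.CSP.R.C7
import Pool.Agent.Lib_helper89.CSP.R.D2
import Pool.Agent.Lib_helper89.CSP.R.D3
set_option autoImplicit false

namespace Pool.Agent.CSP

open Finset

open Classical in
/-- the arrays in `C` -/
noncomputable def d4_arr {n : ℕ} (C : Finset (Fin n × Fin n)) : Finset (Fin n → Fin n) :=
  univ.filter (fun f : Fin n → Fin n => Function.Bijective f ∧ Sid f ∧ ∀ i, (i, f i) ∈ C)

theorem d4_cnt {n : ℕ} (C : Finset (Fin n × Fin n)) : cnt C = (d4_arr C).card := rfl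

theorem d4_mem {n : ℕ} {C : Finset (Fin n × Fin n)} {f : Fin n → Fin n} :
    f ∈ d4_arr C ↔ Function.Bijective f ∧ Sid f ∧ ∀ i, (i, f i) ∈ C := by
  classical
  unfold d4_arr
  rw [mem_filter]
  exact ⟨fun h => h.2, fun h => ⟨mem_univ _, h⟩⟩

open Classical in
theorem d4_graph {n : ℕ} (f : Fin n → Fin n) (C : Finset (Fin n × Fin n))
    (hC : ∀ i, (i, f i) ∈ C) (J : Finset (Fin n)) :
    (C.filter (fun x => x.1 ∈ J)).card =
      J.card + (C.filter (fun x => x.1 ∈ J ∧ x.2 ≠ f x.1)).card := by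
  have h1 : (C.filter (fun x => x.1 ∈ J)) =
      (J.image (fun i => (i, f i))) ∪ (C.filter (fun x => x.1 ∈ J ∧ x.2 ≠ f x.1)) := by
    ext x
    rw [mem_union, mem_filter, mem_filter, mem_image]
    constructor
    · intro h
      by_cases hx : x.2 = f x.1
      · left
        exact ⟨x.1, h.2, Prod.ext rfl hx.symm⟩
      · right
        exact ⟨h.1, h.2, hx⟩
    · intro h
      rcases h with ⟨i, hi, rfl⟩ | h
      · exact ⟨hC i, hi⟩
      · exact ⟨h.1, h.2.1⟩
  have h2 : Disjoint (J.image (fun i => (i, f i)))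
      (C.filter (fun x => x.1 ∈ J ∧ x.2 ≠ f x.1)) := by
    rw [Finset.disjoint_left]
    intro x hx hx'
    rw [mem_image] at hx
    obtain ⟨i, _, rfl⟩ := hx
    rw [mem_filter] at hx'
    exact hx'.2.2 rfl
  rw [h1, card_union_of_disjoint h2, card_image_of_injective]
  intro i j hij
  exact (Prod.ext_iff.mp hij).1

open Classical in
theorem d4_graph_all {n : ℕ} (f : Fin n → Fin n) (C : Finset (Fin n × Fin n))
    (hC : ∀ i, (i, f i) ∈ C) :
    C.card = n + (C.filter (fun x => x.2 ≠ f x.1)).card := by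
  have h := d4_graph f C hC univ
  have h1 : (C.filter (fun x => x.1 ∈ (univ : Finset (Fin n)))) = C := by
    apply filter_true_of_mem
    intro x _
    exact mem_univ _
  have h2 : (C.filter (fun x => x.1 ∈ (univ : Finset (Fin n)) ∧ x.2 ≠ f x.1)) =
      (C.filter (fun x => x.2 ≠ f x.1)) := by
    apply filter_congr
    intro x _
    exact ⟨fun h => h.2, fun h => ⟨mem_univ _, h⟩⟩
  rw [h1, h2, card_univ, Fintype.card_fin] at h
  exact h

open Classical in
theorem d4_main {n q s : ℕ} [NeZero n] (hn2 : 2 ≤ n) (h1 : 1 ≤ s) (hn : 1280 * s + 1 ≤ n)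
    (h : 12 * ((q : ℝ) + 1) ^ 3 * (2 * Real.log n + 3) ≤ s) (B : ℕ)
    (hB : ∀ C : Finset (Fin n × Fin n), C.card ≤ n + 3150 * s → cnt C ≤ B)
    (C : Finset (Fin n × Fin n)) (P : ℕ)
    (hP : ∀ f ∈ d4_arr C, ∀ h : Fin n → Fin (q + 1), Gd s f C h → (phis C (col h)).card ≤ P) :
    cnt C ≤ 5 * n ^ 2 * P * B := by
  obtain ⟨H, hH, hfam⟩ := family (q := q) (s := s) hn2 h
  set T := H.filter (fun h => ∃ f ∈ d4_arr C, Gd s f C h) with hT
  set G : (Fin n → Fin (q + 1)) → (Fin n → Fin n) → Finset (Fin n → Fin n) := fun h φ =>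
    if (rest C (col h) φ).card ≤ n + 3150 * s then d4_arr (rest C (col h) φ) else ∅ with hG
  have hGB : ∀ h φ, (G h φ).card ≤ B := by
    intro h φ
    by_cases hc : (rest C (col h) φ).card ≤ n + 3150 * s
    · have : G h φ = d4_arr (rest C (col h) φ) := if_pos hc
      rw [this, ← d4_cnt]
      exact hB _ hc
    · have : G h φ = ∅ := if_neg hc
      rw [this, card_empty]
      exact Nat.zero_le _
  have hsub : d4_arr C ⊆ T.biUnion (fun h => (phis C (col h)).biUnion (fun φ => G h φ)) := by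
    intro f hf
    obtain ⟨hb, hs, hgr⟩ := d4_mem.mp hf
    obtain ⟨h, hh, hgd⟩ := hfam f hb hs C
    rw [mem_biUnion]
    refine ⟨h, ?_, ?_⟩
    · rw [hT, mem_filter]
      exact ⟨hh, f, hf, hgd⟩
    · rw [mem_biUnion]
      have hφ : ∀ i ∈ col h, (fun i => if i ∈ col h then f i else 0) i = f i := by
        intro i hi
        exact if_pos hi
      refine ⟨fun i => if i ∈ col h then f i else 0, ?_, ?_⟩
      · unfold phis
        rw [mem_filter]
        refine ⟨mem_univ _, ?_, ?_⟩
        · intro i hi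
          rw [hφ i hi]
          exact hgr i
        · intro i hi
          exact if_neg hi
      · have hcard := rest_card hb hs h1 hn C hgd hφ
        have hmem := rest_mem hs C hgr (col h) hφ
        have : G h (fun i => if i ∈ col h then f i else 0) =
          d4_arr (rest C (col h) (fun i => if i ∈ col h then f i else 0)) := if_pos hcard
        rw [this]
        exact d4_mem.mpr ⟨hb, hs, hmem⟩
  rw [d4_cnt]
  refine le_trans (card_le_card hsub) ?_
  have hstep : ∀ h ∈ T, ((phis C (col h)).biUnion (fun φ => G h φ)).card ≤ P * B := by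
    intro h hh
    rw [hT, mem_filter] at hh
    obtain ⟨_, f, hf, hgd⟩ := hh
    refine le_trans (card_biUnion_le_card_mul _ _ B (fun φ _ => hGB h φ)) ?_
    exact Nat.mul_le_mul_right _ (hP f hf h hgd)
  refine le_trans (card_biUnion_le_card_mul _ _ (P * B) hstep) ?_
  have hTc : T.card ≤ 5 * n ^ 2 := le_trans (card_filter_le _ _) hH
  calc T.card * (P * B) ≤ (5 * n ^ 2) * (P * B) := Nat.mul_le_mul_right _ hTc
    _ = 5 * n ^ 2 * P * B := by ring

theorem cnt_step {n q s : ℕ} (hn2 : 2 ≤ n) (h1 : 1 ≤ s) (hn : 1280 * s + 1 ≤ n)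
    (h : 12 * ((q : ℝ) + 1) ^ 3 * (2 * Real.log n + 3) ≤ s) (B : ℕ)
    (hB : ∀ C : Finset (Fin n × Fin n), C.card ≤ n + 3150 * s → cnt C ≤ B)
    (C : Finset (Fin n × Fin n)) :
    cnt C ≤ 5 * n ^ 2 * 2 ^ (4 * (C.card - n) / (q + 1)) * B ∧
      cnt C ≤ 5 * n ^ 2 * n ^ (4 * n / (q + 1)) * B := by
  classical
  have hne : NeZero n := ⟨by omega⟩
  constructor
  · apply d4_main hn2 h1 hn h B hB C
    intro f hf h hgd
    obtain ⟨hb, hs, hgr⟩ := d4_mem.mp hf
    refine le_trans (phis_card C (col h)).1 ?_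
    apply Nat.pow_le_pow_right (by norm_num)
    have e1 := d4_graph f C hgr (col h)
    have e2 := d4_graph_all f C hgr
    have e3 := hgd.2.1
    rw [Nat.le_div_iff_mul_le (Nat.succ_pos q)]
    have e4 : (C.filter (fun x => x.1 ∈ col h)).card - (col h).card =
        (C.filter (fun x => x.1 ∈ col h ∧ x.2 ≠ f x.1)).card := by omega
    have e5 : C.card - n = (C.filter (fun x => x.2 ≠ f x.1)).card := by omega
    rw [e4, e5, Nat.mul_comm]
    exact e3
  · apply d4_main hn2 h1 hn h B hB C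
    intro f hf h hgd
    refine le_trans (phis_card C (col h)).2 ?_
    apply Nat.pow_le_pow_right (by omega)
    rw [Nat.le_div_iff_mul_le (Nat.succ_pos q), Nat.mul_comm]
    exact hgd.1

end Pool.Agent.CSP
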