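import Mathlib
import Pool.Agent.Lib_helper89.CSP.Defs2
set_option autoImplicit false


/-! Block D1: `cnt_le_pow`, `cnt_mono`, `cnt_zero` -/

namespace Pool.Agent.CSP

open Finset

open Classical in
/-- the cells of `C` in column `i` -/
noncomputable def d1_colC {n : ℕ} (C : Finset (Fin n × Fin n)) (i : Fin n) : Finset (Fin n) :=
  univ.filter (fun y => (i, y) ∈ C)

theorem d1_sum {n : ℕ} (C : Finset (Fin n × Fin n)) :
    ∑ i : Fin n, (d1_colC C i).card = C.card := by
  classical
  rw [← Finset.card_sigma]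
  refine Finset.card_bij (fun x _ => (x.1, x.2)) ?_ ?_ ?_
  · rintro ⟨i, y⟩ hx
    simpa [d1_colC] using hx
  · rintro ⟨i, y⟩ _ ⟨j, z⟩ _ h
    simp only [Prod.mk.injEq] at h
    obtain ⟨h1, h2⟩ := h
    subst h1
    subst h2
    rfl
  · rintro ⟨i, y⟩ hx
    exact ⟨⟨i, y⟩, by simpa [d1_colC] using hx, rfl⟩

theorem d1_prod {n : ℕ} (C : Finset (Fin n × Fin n)) :
    cnt C ≤ ∏ i : Fin n, (d1_colC C i).card := by
  classical
  rw [← Fintype.card_piFinset]
  unfold cnt
  apply Finset.card_le_card
  intro f hf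
  simp only [mem_filter, mem_univ, true_and] at hf
  rw [Fintype.mem_piFinset]
  intro i
  simpa [d1_colC] using hf.2.2 i

/-- D1 -/
theorem cnt_le_pow {n : ℕ} (C : Finset (Fin n × Fin n)) : cnt C ≤ 2 ^ (C.card - n) := by
  classical
  refine (d1_prod C).trans ?_
  by_cases h : ∀ i : Fin n, 1 ≤ (d1_colC C i).card
  · have h1 : ∀ i ∈ (univ : Finset (Fin n)),
        (d1_colC C i).card ≤ 2 ^ ((d1_colC C i).card - 1) := by
      intro i _
      have h2 := h i
      have h3 : (d1_colC C i).card - 1 < 2 ^ ((d1_colC C i).card - 1) := Nat.lt_two_pow_self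
      omega
    refine (Finset.prod_le_prod' h1).trans ?_
    rw [Finset.prod_pow_eq_pow_sum]
    apply Nat.pow_le_pow_right (by norm_num)
    have h4 : ∑ i : Fin n, ((d1_colC C i).card - 1) + ∑ i : Fin n, 1 =
        ∑ i : Fin n, (d1_colC C i).card := by
      rw [← Finset.sum_add_distrib]
      apply Finset.sum_congr rfl
      intro i _
      have := h i
      omega
    rw [d1_sum] at h4
    simp only [sum_const, card_univ, Fintype.card_fin, smul_eq_mul, mul_one] at h4
    omega
  · push Not at h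
    obtain ⟨i, hi⟩ := h
    have h5 : ∏ i : Fin n, (d1_colC C i).card = 0 :=
      Finset.prod_eq_zero (mem_univ i) (by omega)
    rw [h5]
    exact Nat.zero_le _

theorem cnt_mono {n : ℕ} {C C' : Finset (Fin n × Fin n)} (h : C ⊆ C') : cnt C ≤ cnt C' := by
  classical
  unfold cnt
  apply Finset.card_le_card
  intro f hf
  simp only [mem_filter, mem_univ, true_and] at hf ⊢
  exact ⟨hf.1, hf.2.1, fun i => h (hf.2.2 i)⟩

theorem cnt_zero {n : ℕ} {C : Finset (Fin n × Fin n)} (h : C.card < n) : cnt C = 0 := by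
  classical
  have h1 : ∃ i : Fin n, (d1_colC C i).card = 0 := by
    by_contra hne
    push Not at hne
    have h2 : ∑ i : Fin n, 1 ≤ ∑ i : Fin n, (d1_colC C i).card :=
      Finset.sum_le_sum (fun i _ => Nat.one_le_iff_ne_zero.mpr (hne i))
    rw [d1_sum] at h2
    simp only [sum_const, card_univ, Fintype.card_fin, smul_eq_mul, mul_one] at h2
    omega
  obtain ⟨i, hi⟩ := h1
  have h3 := d1_prod C
  rw [Finset.prod_eq_zero (mem_univ i) hi] at h3
  omega

end Pool.Agent.CSP
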