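import Mathlib
import Pool.Agent.Lib_helper89.CSP.Defs2
set_option autoImplicit false

/-! Block E1 -/

namespace Pool.Agent.CSP

open Finset

theorem halving (b : ℕ → ℕ) (X A N : ℕ) (hA : 1 ≤ A) (h0 : ∀ u ≤ X, b u ≤ A)
    (h1 : ∀ u, X < u → u ≤ N → b u ≤ A * b (u / 2)) :
    ∀ u ≤ N, b u ≤ A ^ (2 + Nat.log 2 u) := by
  intro u
  induction u using Nat.strong_induction_on with
  | _ u ih =>
    intro hu
    by_cases hX : u ≤ X
    · calc b u ≤ A := h0 u hX
        _ = A ^ 1 := (pow_one A).symm
        _ ≤ A ^ (2 + Nat.log 2 u) := Nat.pow_le_pow_right hA (by omega)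
    · have hXu : X < u := by omega
      have h2 := h1 u hXu hu
      by_cases hu2 : 2 ≤ u
      · have h3 := ih (u / 2) (by omega) (by omega)
        have h4 : Nat.log 2 u = Nat.log 2 (u / 2) + 1 := by
          rw [Nat.log_of_one_lt_of_le (by norm_num) hu2]
        calc b u ≤ A * b (u / 2) := h2
          _ ≤ A * A ^ (2 + Nat.log 2 (u / 2)) := Nat.mul_le_mul_left A h3
          _ = A ^ (2 + Nat.log 2 u) := by
            rw [h4, ← add_assoc, pow_succ]; ring
      · have hu1 : u = 1 := by omega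
        subst hu1
        have h5 : b 0 ≤ A := h0 0 (by omega)
        have h6 : (1 : ℕ) / 2 = 0 := by norm_num
        rw [h6] at h2
        calc b 1 ≤ A * b 0 := h2
          _ ≤ A * A := Nat.mul_le_mul_left A h5
          _ = A ^ 2 := by ring
          _ ≤ A ^ (2 + Nat.log 2 1) := Nat.pow_le_pow_right hA (by omega)

end Pool.Agent.CSP
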