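import Mathlib
import Pool.Agent.Lib_helper89.CSP.Defs2
import Pool.Agent.Lib_helper89.CSP.R.D1
import Pool.Agent.Lib_helper89.CSP.R.D4
import Pool.Agent.Lib_helper89.CSP.R.E1
set_option autoImplicit false

namespace Pool.Agent.CSP

open Finset

theorem e2_log {n : ℕ} (hn : 10000 ≤ n) : 3 ≤ Real.log n := by
  have hn' : (10000 : ℝ) ≤ n := by exact_mod_cast hn
  rw [Real.le_log_iff_exp_le (by linarith)]
  have h1 : Real.exp 3 = Real.exp 1 ^ 3 := by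
    rw [← Real.exp_nat_mul]; norm_num
  have h2 : Real.exp 1 < 2.7182818286 := Real.exp_one_lt_d9
  rw [h1]
  have h3 : Real.exp 1 ^ 3 ≤ 3 ^ 3 :=
    pow_le_pow_left₀ (Real.exp_pos 1).le (by linarith) 3
  linarith

theorem e2_cube {n X : ℕ} (hn : 10000 ≤ n)
    (hX : 650 * (n : ℝ) ^ (2 / 3 : ℝ) * Real.log n ^ (1 / 3 : ℝ) ≤ X) :
    650 ^ 3 * (n : ℝ) ^ 2 * Real.log n ≤ (X : ℝ) ^ 3 := by
  have hn0 : (0 : ℝ) ≤ n := Nat.cast_nonneg n
  have hL : 0 ≤ Real.log n := by linarith [e2_log hn]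
  have h1 := pow_le_pow_left₀ (by positivity) hX 3
  have e1 : ((n : ℝ) ^ (2 / 3 : ℝ)) ^ 3 = (n : ℝ) ^ 2 := by
    rw [← Real.rpow_natCast, ← Real.rpow_mul hn0, ← Real.rpow_natCast]
    norm_num
  have e2 : (Real.log n ^ (1 / 3 : ℝ)) ^ 3 = Real.log n := by
    rw [← Real.rpow_natCast, ← Real.rpow_mul hL]
    norm_num
  rw [mul_pow, mul_pow, e1, e2] at h1
  exact h1

theorem e2_num {n X u : ℕ} (hn : 10000 ≤ n)
    (hX : 650 ^ 3 * (n : ℝ) ^ 2 * Real.log n ≤ (X : ℝ) ^ 3) (hX0 : 300000 ≤ X)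
    (hu1 : X < u) (hu2 : u ≤ 3 * n) : ∃ q s : ℕ, 1 ≤ s ∧ 1280 * s + 1 ≤ n ∧
      12 * ((q : ℝ) + 1) ^ 3 * (2 * Real.log n + 3) ≤ s ∧ 6300 * s ≤ u ∧
      4 * u ≤ (q + 1) * X := by
  have hL := e2_log hn
  set L := Real.log n with hLd
  have hXpos : (0 : ℝ) < X := by
    have : (300000 : ℝ) ≤ X := by exact_mod_cast hX0
    linarith
  have hn' : (10000 : ℝ) ≤ n := by exact_mod_cast hn
  have hu1' : (X : ℝ) < u := by exact_mod_cast hu1
  have hu2' : (u : ℝ) ≤ 3 * n := by exact_mod_cast hu2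
  have hX0' : (300000 : ℝ) ≤ X := by exact_mod_cast hX0
  set q : ℕ := 4 * u / X with hq
  have hq1 : 4 * u ≤ (q + 1) * X := by
    have h1 := Nat.div_add_mod (4 * u) X
    have h2 := Nat.mod_lt (4 * u) (show 0 < X by omega)
    rw [hq]
    nlinarith
  have hq2 : ((q : ℝ) + 1) * X ≤ 5 * u := by
    have h1 : q * X ≤ 4 * u := Nat.div_mul_le_self _ _
    have h2 : (q : ℝ) * X ≤ 4 * u := by exact_mod_cast h1
    nlinarith
  have hq0 : (0 : ℝ) ≤ q := Nat.cast_nonneg q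
  have hc := pow_le_pow_left₀ (by positivity) hq2 3
  rw [mul_pow, mul_pow] at hc
  set T : ℝ := 36 * ((q : ℝ) + 1) ^ 3 * L with hT
  have hT0 : 0 < T := by positivity
  have hnL : 0 < (n : ℝ) ^ 2 * L := by positivity
  have hT1 : T * 274625000 ≤ 40500 * u := by
    have h1 : T * (650 ^ 3 * (n : ℝ) ^ 2 * L) ≤ T * (X : ℝ) ^ 3 :=
      mul_le_mul_of_nonneg_left hX hT0.le
    have h2 : T * (X : ℝ) ^ 3 ≤ 4500 * (u : ℝ) ^ 3 * L := by
      have h3 : T * (X : ℝ) ^ 3 = (36 * L) * (((q : ℝ) + 1) ^ 3 * (X : ℝ) ^ 3) := by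
        rw [hT]; ring
      rw [h3]
      have h4 := mul_le_mul_of_nonneg_left hc (show 0 ≤ 36 * L by positivity)
      refine h4.trans (le_of_eq ?_)
      ring
    have h5 : (u : ℝ) ^ 2 ≤ 9 * (n : ℝ) ^ 2 := by
      have := pow_le_pow_left₀ (by linarith) hu2' 2
      refine this.trans (le_of_eq ?_)
      ring
    have h6 : 4500 * (u : ℝ) ^ 3 * L ≤ 40500 * u * ((n : ℝ) ^ 2 * L) := by
      have h7 : 0 ≤ (u : ℝ) * L := by
        have : (0 : ℝ) ≤ u := Nat.cast_nonneg u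
        positivity
      have h8 := mul_le_mul_of_nonneg_left h5 h7
      nlinarith
    have h9 : (T * 274625000) * ((n : ℝ) ^ 2 * L) ≤ (40500 * u) * ((n : ℝ) ^ 2 * L) := by
      calc (T * 274625000) * ((n : ℝ) ^ 2 * L) = T * (650 ^ 3 * (n : ℝ) ^ 2 * L) := by ring
        _ ≤ _ := h1.trans (h2.trans h6)
    exact le_of_mul_le_mul_right h9 hnL
  refine ⟨q, ⌈T⌉₊, Nat.one_le_ceil_iff.2 hT0, ?_, ?_, ?_, hq1⟩
  · have h1 := Nat.ceil_lt_add_one hT0.le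
    have h2 : (1280 * ((⌈T⌉₊ : ℕ) : ℝ) + 1) ≤ n := by nlinarith
    exact_mod_cast h2
  · have h1 := Nat.le_ceil T
    refine le_trans ?_ h1
    have h2 : 0 ≤ 12 * ((q : ℝ) + 1) ^ 3 := by positivity
    have h3 : 2 * L + 3 ≤ 3 * L := by linarith
    have h4 := mul_le_mul_of_nonneg_left h3 h2
    refine h4.trans (le_of_eq ?_)
    rw [hT]; ring
  · have h1 := Nat.ceil_lt_add_one hT0.le
    have h2 : 6300 * ((⌈T⌉₊ : ℕ) : ℝ) ≤ u := by nlinarith
    exact_mod_cast h2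

theorem cnt_mid : ∃ (n₀ : ℕ), 2 ≤ n₀ ∧ ∀ n : ℕ, n₀ ≤ n → ∀ X : ℕ,
    650 * (n : ℝ) ^ (2 / 3 : ℝ) * Real.log n ^ (1 / 3 : ℝ) ≤ X → X ≤ n →
    ∀ C : Finset (Fin n × Fin n), C.card ≤ n + 3 * n →
      cnt C ≤ (5 * n ^ 2 * 2 ^ X) ^ (2 + Nat.log 2 (3 * n)) := by
  refine ⟨10000, by norm_num, ?_⟩
  intro n hn X hX _ C hC
  have hcube := e2_cube hn hX
  have hL := e2_log hn
  have hn' : (10000 : ℝ) ≤ n := by exact_mod_cast hn
  have hX0 : 300000 ≤ X := by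
    by_contra hlt
    rw [not_le] at hlt
    have h1 : (X : ℝ) ≤ 300000 := by exact_mod_cast hlt.le
    have h2 := pow_le_pow_left₀ (Nat.cast_nonneg X) h1 3
    have h3 : (10000 : ℝ) ^ 2 ≤ (n : ℝ) ^ 2 := pow_le_pow_left₀ (by norm_num) hn' 2
    have h4 : (10000 : ℝ) ^ 2 * 3 ≤ (n : ℝ) ^ 2 * Real.log n :=
      mul_le_mul h3 hL (by norm_num) (by positivity)
    nlinarith
  have hA1 : 1 ≤ 5 * n ^ 2 * 2 ^ X := Nat.one_le_iff_ne_zero.2 (by positivity)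
  have hn2 : 1 ≤ 5 * n ^ 2 := Nat.one_le_iff_ne_zero.2 (by positivity)
  let b : ℕ → ℕ := fun u =>
    (univ.filter (fun C : Finset (Fin n × Fin n) => C.card ≤ n + u)).sup cnt
  have hb : ∀ (u : ℕ) (C : Finset (Fin n × Fin n)), C.card ≤ n + u → cnt C ≤ b u := by
    intro u C h
    exact Finset.le_sup (f := cnt) (by simpa using h)
  have key := halving b X (5 * n ^ 2 * 2 ^ X) (3 * n) hA1 ?_ ?_ (3 * n) le_rfl
  · exact (hb _ C hC).trans key
  · intro u hu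
    refine Finset.sup_le ?_
    intro C' hC'
    rw [Finset.mem_filter] at hC'
    have h1 := cnt_le_pow C'
    have h2 : 2 ^ (C'.card - n) ≤ 2 ^ X := Nat.pow_le_pow_right (by norm_num) (by omega)
    calc cnt C' ≤ 2 ^ X := h1.trans h2
      _ = 1 * 2 ^ X := (one_mul _).symm
      _ ≤ 5 * n ^ 2 * 2 ^ X := Nat.mul_le_mul_right _ hn2
  · intro u hu1 hu2
    obtain ⟨q, s, hs1, hs2, hs3, hs4, hs5⟩ := e2_num hn hcube hX0 hu1 hu2
    refine Finset.sup_le ?_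
    intro C' hC'
    rw [Finset.mem_filter] at hC'
    have hstep := (cnt_step (n := n) (q := q) (s := s) (by omega) hs1 hs2 hs3 (b (u / 2))
      (fun D hD => hb _ D (by omega)) C').1
    have h3 : 4 * (C'.card - n) / (q + 1) ≤ X := by
      apply Nat.div_le_of_le_mul
      have : 4 * (C'.card - n) ≤ 4 * u := by omega
      exact this.trans hs5
    have h4 : 2 ^ (4 * (C'.card - n) / (q + 1)) ≤ 2 ^ X := Nat.pow_le_pow_right (by norm_num) h3
    exact hstep.trans (Nat.mul_le_mul_right _ (Nat.mul_le_mul_left _ h4))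

end Pool.Agent.CSP
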