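import Mathlib
import Pool.Agent.Lib_helper89.CSP.Defs2
import Pool.Agent.Lib_helper89.CSP.R.D4
import Pool.Agent.Lib_helper89.CSP.R.E2
set_option autoImplicit false

/-! Block E3: the final count -/

namespace Pool.Agent.CSP

open Finset

theorem e3_cnt_le (n : ℕ) : cnt (univ : Finset (Fin n × Fin n)) ≤ n ^ n := by
  classical
  unfold cnt
  refine (Finset.card_filter_le _ _).trans ?_
  simp

theorem e3_log_bound (K : ℝ) (hK : 0 < K) : ∃ N : ℕ, ∀ n : ℕ, N ≤ n →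
    K * Real.log n ≤ n := by
  have h1 := Real.isLittleO_log_id_atTop.bound (c := 1 / K) (by positivity)
  have h2 := tendsto_natCast_atTop_atTop (R := ℝ) |>.eventually h1
  obtain ⟨N, hN⟩ := Filter.eventually_atTop.mp h2
  refine ⟨N + 1, fun n hn => ?_⟩
  have h3 := hN n (by omega)
  have hn1 : (1 : ℝ) ≤ n := by
    have : 1 ≤ n := by omega
    exact_mod_cast this
  simp only [id, Real.norm_eq_abs] at h3
  rw [abs_of_nonneg (Real.log_nonneg hn1), abs_of_nonneg (by linarith : (0 : ℝ) ≤ n)] at h3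
  calc K * Real.log n ≤ K * (1 / K * n) := mul_le_mul_of_nonneg_left h3 hK.le
    _ = n := by field_simp

theorem e3_log_large (K : ℝ) : ∃ N : ℕ, ∀ n : ℕ, N ≤ n → K ≤ Real.log n := by
  have h := (Real.tendsto_log_atTop.comp (tendsto_natCast_atTop_atTop (R := ℝ))).eventually
    (Filter.eventually_ge_atTop K)
  obtain ⟨N, hN⟩ := Filter.eventually_atTop.mp h
  exact ⟨N, fun n hn => hN n hn⟩

/-- the arithmetic: `u³ = n`, `v³ = log n` -/
theorem e3_arith (u v : ℝ) (hv : 1 ≤ v) (huv : 1300 * v ≤ u)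
    (hu : 10000 ≤ u ^ 3) :
    ∃ Q s X : ℕ, 1 ≤ Q ∧ 1 ≤ s ∧ 36 * (Q : ℝ) ^ 3 * v ^ 3 ≤ s ∧
      1280 * (s : ℝ) + 1 ≤ u ^ 3 ∧ 3150 * (s : ℝ) ≤ 3 * u ^ 3 ∧
      650 * (u ^ 2 * v) ≤ X ∧ (X : ℝ) ≤ u ^ 3 ∧ (X : ℝ) ≤ 650 * (u ^ 2 * v) + 1 ∧
      4 * u ^ 3 / Q ≤ 400 * (u ^ 2 * v) := by
  have hv0 : 0 < v := by linarith
  have hu0 : 0 < u := by linarith
  have huv0 : 26 ≤ u / (50 * v) := by
    rw [le_div_iff₀ (by positivity)]
    linarith
  have hQ1 : ((⌊u / (50 * v)⌋₊ : ℕ) : ℝ) ≤ u / (50 * v) := Nat.floor_le (by positivity)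
  have hQ2 : u / (50 * v) < ((⌊u / (50 * v)⌋₊ : ℕ) : ℝ) + 1 := Nat.lt_floor_add_one _
  set Q : ℕ := ⌊u / (50 * v)⌋₊ with hQ
  have hQpos : (25 : ℝ) < Q := by linarith
  have hQ3 : (u / (100 * v)) ≤ Q := by
    have h : u / (100 * v) = u / (50 * v) / 2 := by
      field_simp
      ring
    rw [h]
    linarith
  have hs1 : 36 * (Q : ℝ) ^ 3 * v ^ 3 ≤ ((⌈36 * (Q : ℝ) ^ 3 * v ^ 3⌉₊ : ℕ) : ℝ) := Nat.le_ceil _
  have hs2 : ((⌈36 * (Q : ℝ) ^ 3 * v ^ 3⌉₊ : ℕ) : ℝ) < 36 * (Q : ℝ) ^ 3 * v ^ 3 + 1 :=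
    Nat.ceil_lt_add_one (by positivity)
  set s : ℕ := ⌈36 * (Q : ℝ) ^ 3 * v ^ 3⌉₊ with hs
  have hX1 : 650 * (u ^ 2 * v) ≤ ((⌈650 * (u ^ 2 * v)⌉₊ : ℕ) : ℝ) := Nat.le_ceil _
  have hX2 : ((⌈650 * (u ^ 2 * v)⌉₊ : ℕ) : ℝ) < 650 * (u ^ 2 * v) + 1 :=
    Nat.ceil_lt_add_one (by positivity)
  set X : ℕ := ⌈650 * (u ^ 2 * v)⌉₊ with hX
  have hQ3v : (Q : ℝ) ^ 3 * v ^ 3 ≤ u ^ 3 / 125000 := by
    have h1 : (Q : ℝ) * v ≤ u / 50 := by
      calc (Q : ℝ) * v ≤ u / (50 * v) * v := mul_le_mul_of_nonneg_right hQ1 hv0.le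
        _ = u / 50 := by field_simp
    have h2 : ((Q : ℝ) * v) ^ 3 ≤ (u / 50) ^ 3 := pow_le_pow_left₀ (by positivity) h1 3
    rw [mul_pow] at h2
    refine h2.trans (le_of_eq ?_)
    ring
  have hsu : (s : ℝ) ≤ 36 * (u ^ 3 / 125000) + 1 := by nlinarith [hs2, hQ3v]
  refine ⟨Q, s, X, ?_, ?_, hs1, ?_, ?_, hX1, ?_, hX2.le, ?_⟩
  · have : (0 : ℝ) < Q := by linarith
    have h : 0 < Q := by exact_mod_cast this
    omega
  · have h : (0 : ℝ) < s := lt_of_lt_of_le (by positivity) hs1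
    have h' : 0 < s := by exact_mod_cast h
    omega
  · linarith
  · linarith
  · have h1 : 650 * (u ^ 2 * v) ≤ u ^ 3 / 2 := by
      have h2 : 0 ≤ u ^ 2 * (u - 1300 * v) := mul_nonneg (by positivity) (by linarith)
      nlinarith [h2]
    linarith
  · have hQ0 : (0 : ℝ) < Q := by linarith
    rw [div_le_iff₀ hQ0]
    have h1 : 400 * (u ^ 2 * v) * (u / (100 * v)) ≤ 400 * (u ^ 2 * v) * Q :=
      mul_le_mul_of_nonneg_left hQ3 (by positivity)
    have h2 : 400 * (u ^ 2 * v) * (u / (100 * v)) = 4 * u ^ 3 := by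
      field_simp
      ring
    linarith

theorem e3_natlog (n : ℕ) (hn : 1 ≤ n) (hL : 3 ≤ Real.log n) :
    ((2 + Nat.log 2 (3 * n) : ℕ) : ℝ) ≤ 5 * Real.log n := by
  have h1 : 2 ^ (Nat.log 2 (3 * n)) ≤ 3 * n := Nat.pow_log_le_self 2 (by omega)
  have h2 : ((2 : ℝ)) ^ (Nat.log 2 (3 * n)) ≤ 3 * n := by exact_mod_cast h1
  have hn0 : (0 : ℝ) < n := by exact_mod_cast hn
  have h3 : Real.log ((2 : ℝ) ^ (Nat.log 2 (3 * n))) ≤ Real.log (3 * n) :=
    Real.log_le_log (by positivity) h2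
  rw [Real.log_pow, Real.log_mul (by norm_num) hn0.ne'] at h3
  have h4 : Real.log 3 ≤ 2 := by
    have := Real.log_le_sub_one_of_pos (show (0 : ℝ) < 3 by norm_num)
    linarith
  have h5 := Real.log_two_gt_d9
  have h6 : ((Nat.log 2 (3 * n) : ℕ) : ℝ) * (1 / 2) ≤
      ((Nat.log 2 (3 * n) : ℕ) : ℝ) * Real.log 2 :=
    mul_le_mul_of_nonneg_left (by linarith) (Nat.cast_nonneg _)
  push_cast
  linarith

/-- the final estimate for large `n` -/
theorem e3_final (n Q X k : ℕ) (u v : ℝ) (hn : 5 ≤ n) (hv : v ^ 3 = Real.log n)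
    (hv1 : 1 ≤ v) (huv : v ≤ u)
    (hX : (X : ℝ) ≤ 650 * (u ^ 2 * v) + 1) (hQ : 4 * (n : ℝ) / Q ≤ 400 * (u ^ 2 * v))
    (hk : (k : ℝ) ≤ 5 * Real.log n) :
    ((5 * n ^ 2 * n ^ (4 * n / Q) * (5 * n ^ 2 * 2 ^ X) ^ k : ℕ) : ℝ) ≤
      Real.exp (4000 * (u ^ 2 * v ^ 4)) := by
  have hn0 : (0 : ℝ) < n := by
    have : 0 < n := by omega
    exact_mod_cast this
  have hn5 : (5 : ℝ) ≤ n := by exact_mod_cast hn
  have hL0 : 0 ≤ Real.log n := Real.log_nonneg (by linarith)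
  have hexp : Real.exp (Real.log n) = n := Real.exp_log hn0
  have h5 : (5 : ℝ) * n ^ 2 ≤ Real.exp (3 * v ^ 3) := by
    rw [hv]
    have h : Real.exp (3 * Real.log n) = (n : ℝ) ^ 3 := by
      have h' := Real.exp_nat_mul (Real.log n) 3
      rw [hexp] at h'
      exact_mod_cast h'
    rw [h]
    nlinarith [mul_nonneg (sq_nonneg (n : ℝ)) (by linarith : (0 : ℝ) ≤ (n : ℝ) - 5)]
  have hdiv : (((4 * n / Q : ℕ)) : ℝ) ≤ 400 * (u ^ 2 * v) := by
    refine le_trans ?_ hQ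
    have h := Nat.cast_div_le (α := ℝ) (m := 4 * n) (n := Q)
    push_cast at h
    exact h
  have hpow : ((n : ℝ)) ^ (4 * n / Q) ≤ Real.exp (400 * (u ^ 2 * v) * v ^ 3) := by
    have h1 : ((n : ℝ)) ^ (4 * n / Q) = Real.exp (((4 * n / Q : ℕ) : ℝ) * Real.log n) := by
      rw [Real.exp_nat_mul, hexp]
    rw [h1, Real.exp_le_exp, hv]
    exact mul_le_mul_of_nonneg_right hdiv hL0
  have h2X : ((2 : ℝ)) ^ X ≤ Real.exp (650 * (u ^ 2 * v) + 1) := by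
    have h1 : ((2 : ℝ)) ^ X ≤ (Real.exp 1) ^ X :=
      pow_le_pow_left₀ (by norm_num) (by linarith [Real.exp_one_gt_d9]) X
    have h2 : (Real.exp 1) ^ X = Real.exp ((X : ℝ) * 1) := (Real.exp_nat_mul 1 X).symm
    rw [h2, mul_one] at h1
    exact h1.trans (Real.exp_le_exp.mpr hX)
  have hbase : (5 : ℝ) * n ^ 2 * 2 ^ X ≤ Real.exp (3 * v ^ 3 + (650 * (u ^ 2 * v) + 1)) := by
    rw [Real.exp_add]
    exact mul_le_mul h5 h2X (by positivity) (Real.exp_pos _).le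
  have hB : ((5 : ℝ) * n ^ 2 * 2 ^ X) ^ k ≤
      Real.exp (5 * v ^ 3 * (3 * v ^ 3 + (650 * (u ^ 2 * v) + 1))) := by
    have h1 : ((5 : ℝ) * n ^ 2 * 2 ^ X) ^ k ≤
        (Real.exp (3 * v ^ 3 + (650 * (u ^ 2 * v) + 1))) ^ k :=
      pow_le_pow_left₀ (by positivity) hbase k
    rw [← Real.exp_nat_mul] at h1
    refine h1.trans (Real.exp_le_exp.mpr ?_)
    refine mul_le_mul_of_nonneg_right ?_ ?_
    · rw [hv]
      exact hk
    · have : 0 < u := by linarith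
      positivity
  have hu0 : 0 < u := by linarith
  have hfin : 3 * v ^ 3 + 400 * (u ^ 2 * v) * v ^ 3 +
      5 * v ^ 3 * (3 * v ^ 3 + (650 * (u ^ 2 * v) + 1)) ≤ 4000 * (u ^ 2 * v ^ 4) := by
    have hu1 : 1 ≤ u := by linarith
    have e1 : v ^ 3 ≤ u ^ 2 * v ^ 4 := by
      have h1 : 1 ≤ u ^ 2 * v := by
        have h2 : 1 ≤ u ^ 2 := one_le_pow₀ hu1
        have h3 : 1 * 1 ≤ u ^ 2 * v := mul_le_mul h2 hv1 (by norm_num) (by positivity)
        linarith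
      calc v ^ 3 = 1 * v ^ 3 := by ring
        _ ≤ (u ^ 2 * v) * v ^ 3 := mul_le_mul_of_nonneg_right h1 (by positivity)
        _ = u ^ 2 * v ^ 4 := by ring
    have e2 : v ^ 3 * v ^ 3 ≤ u ^ 2 * v ^ 4 := by
      have h1 : v ^ 2 ≤ u ^ 2 := pow_le_pow_left₀ (by linarith) huv 2
      calc v ^ 3 * v ^ 3 = v ^ 2 * v ^ 4 := by ring
        _ ≤ u ^ 2 * v ^ 4 := mul_le_mul_of_nonneg_right h1 (by positivity)
    nlinarith [e1, e2]
  have htot : ((5 * n ^ 2 * n ^ (4 * n / Q) * (5 * n ^ 2 * 2 ^ X) ^ k : ℕ) : ℝ) ≤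
      Real.exp (3 * v ^ 3) * Real.exp (400 * (u ^ 2 * v) * v ^ 3) *
        Real.exp (5 * v ^ 3 * (3 * v ^ 3 + (650 * (u ^ 2 * v) + 1))) := by
    push_cast
    refine mul_le_mul (mul_le_mul h5 hpow (by positivity) (Real.exp_pos _).le) hB
      (by positivity) (by positivity)
  refine htot.trans ?_
  rw [← Real.exp_add, ← Real.exp_add]
  exact Real.exp_le_exp.mpr hfin

/-- E3 (uses D4, E2) -/
theorem cnt_all : ∃ C : ℝ, 0 < C ∧ ∀ n : ℕ, 2 ≤ n →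
    (cnt (univ : Finset (Fin n × Fin n)) : ℝ) ≤
      Real.exp (C * (n : ℝ) ^ (2 / 3 : ℝ) * Real.log n ^ (4 / 3 : ℝ)) := by
  obtain ⟨n₀, hn₀2, hmid⟩ := cnt_mid
  obtain ⟨N₁, hN₁⟩ := e3_log_bound (1300 ^ 3) (by norm_num)
  obtain ⟨N₂, hN₂⟩ := e3_log_large 3
  set n₁ : ℕ := n₀ + N₁ + N₂ + 10000 with hn₁
  refine ⟨4000 + 4 * (n₁ : ℝ) ^ 2, by positivity, fun n hn => ?_⟩
  have hn0 : (0 : ℝ) < n := by
    have : 0 < n := by omega
    exact_mod_cast this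
  have hn2 : (2 : ℝ) ≤ n := by exact_mod_cast hn
  have hL2 : (1 : ℝ) / 2 ≤ Real.log n := by
    have h1 : Real.log 2 ≤ Real.log n := Real.log_le_log (by norm_num) hn2
    have h2 := Real.log_two_gt_d9
    linarith
  set u : ℝ := (n : ℝ) ^ (1 / 3 : ℝ) with hu
  set v : ℝ := (Real.log n) ^ (1 / 3 : ℝ) with hv
  have hL0 : 0 ≤ Real.log n := by linarith
  have hu0 : 0 < u := Real.rpow_pos_of_pos hn0 _
  have hv0 : 0 < v := Real.rpow_pos_of_pos (by linarith) _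
  have hu3 : u ^ 3 = n := by
    rw [hu, ← Real.rpow_natCast, ← Real.rpow_mul hn0.le]
    norm_num
  have hv3 : v ^ 3 = Real.log n := by
    rw [hv, ← Real.rpow_natCast, ← Real.rpow_mul hL0]
    norm_num
  have hu2 : (n : ℝ) ^ (2 / 3 : ℝ) = u ^ 2 := by
    rw [hu, ← Real.rpow_natCast, ← Real.rpow_mul hn0.le]
    norm_num
  have hv4 : (Real.log n) ^ (4 / 3 : ℝ) = v ^ 4 := by
    rw [hv, ← Real.rpow_natCast, ← Real.rpow_mul hL0]
    norm_num
  have hv1' : (Real.log n) ^ (1 / 3 : ℝ) = v := hv.symm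
  rw [hu2, hv4, mul_assoc]
  have hu1 : 1 ≤ u := by
    by_contra hcon
    push Not at hcon
    have : u ^ 3 < 1 := pow_lt_one₀ hu0.le hcon (by norm_num)
    linarith
  by_cases hlarge : n₁ ≤ n
  · have hL3 : 3 ≤ Real.log n := hN₂ n (by omega)
    have hLn : 1300 ^ 3 * Real.log n ≤ n := hN₁ n (by omega)
    have hv33 : 3 ≤ v ^ 3 := by rw [hv3]; exact hL3
    have hv1 : 1 ≤ v := by
      by_contra hcon
      push Not at hcon
      have : v ^ 3 < 1 := pow_lt_one₀ hv0.le hcon (by norm_num)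
      linarith
    have huv : 1300 * v ≤ u := by
      by_contra hcon
      push Not at hcon
      have h1 : u ^ 3 < (1300 * v) ^ 3 := pow_lt_pow_left₀ hcon hu0.le (by norm_num)
      rw [mul_pow, hv3, hu3] at h1
      linarith
    have hn4 : (10000 : ℝ) ≤ u ^ 3 := by
      rw [hu3]
      have : 10000 ≤ n := by omega
      exact_mod_cast this
    obtain ⟨Q, s, X, hQ1, hs1, hs36, hs1280, hs3150, hX1, hX2, hX3, hQ4⟩ :=
      e3_arith u v hv1 huv hn4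
    have hXn : X ≤ n := by
      rw [hu3] at hX2
      exact_mod_cast hX2
    have hsn : 1280 * s + 1 ≤ n := by
      rw [hu3] at hs1280
      exact_mod_cast hs1280
    have hs3n : 3150 * s ≤ 3 * n := by
      rw [hu3] at hs3150
      exact_mod_cast hs3150
    have hstep : 12 * (((Q - 1 : ℕ) : ℝ) + 1) ^ 3 * (2 * Real.log n + 3) ≤ s := by
      have hc : (((Q - 1 : ℕ) : ℝ) + 1) = Q := by
        rw [Nat.cast_sub hQ1]
        simp
      rw [hc]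
      refine le_trans ?_ hs36
      rw [hv3]
      have h1 : 12 * (Q : ℝ) ^ 3 * (2 * Real.log n + 3) ≤ 12 * (Q : ℝ) ^ 3 * (3 * Real.log n) :=
        mul_le_mul_of_nonneg_left (by linarith) (by positivity)
      linarith
    have hB : ∀ C : Finset (Fin n × Fin n), C.card ≤ n + 3150 * s →
        cnt C ≤ (5 * n ^ 2 * 2 ^ X) ^ (2 + Nat.log 2 (3 * n)) := by
      intro C hC
      refine hmid n (by omega) X ?_ hXn C (by omega)
      rw [hu2, hv1', mul_assoc]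
      exact hX1
    have h := (cnt_step (q := Q - 1) (s := s) hn hs1 hsn hstep _ hB univ).2
    have hQQ : Q - 1 + 1 = Q := by omega
    rw [hQQ] at h
    have hcast : (cnt (univ : Finset (Fin n × Fin n)) : ℝ) ≤
        ((5 * n ^ 2 * n ^ (4 * n / Q) * (5 * n ^ 2 * 2 ^ X) ^ (2 + Nat.log 2 (3 * n)) : ℕ) : ℝ) := by
      exact_mod_cast h
    refine hcast.trans ?_
    refine (e3_final n Q X _ u v (by omega) hv3 hv1 (by linarith) hX3 ?_
      (e3_natlog n (by omega) hL3)).trans ?_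
    · rw [← hu3]
      exact hQ4
    · refine Real.exp_le_exp.mpr (mul_le_mul_of_nonneg_right ?_ (by positivity))
      have : (0 : ℝ) ≤ 4 * (n₁ : ℝ) ^ 2 := by positivity
      linarith
  · push Not at hlarge
    have hW : (1 : ℝ) / 4 ≤ u ^ 2 * v ^ 4 := by
      have hv4' : (1 : ℝ) / 4 ≤ v ^ 4 := by
        by_cases hvv : 1 ≤ v
        · have : 1 ≤ v ^ 4 := one_le_pow₀ hvv
          linarith
        · push Not at hvv
          have h1 : (1 : ℝ) / 2 ≤ v ^ 3 := by rw [hv3]; exact hL2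
          have h2 : v ^ 3 ≤ v := by
            calc v ^ 3 ≤ v ^ 1 := pow_le_pow_of_le_one hv0.le hvv.le (by norm_num)
              _ = v := pow_one v
          have h3 : (1 : ℝ) / 2 ≤ v := h1.trans h2
          calc (1 : ℝ) / 4 = 1 / 2 * (1 / 2) := by norm_num
            _ ≤ v ^ 3 * v := mul_le_mul h1 h3 (by norm_num) (by positivity)
            _ = v ^ 4 := by ring
      have hu2' : 1 ≤ u ^ 2 := one_le_pow₀ hu1
      calc (1 : ℝ) / 4 ≤ v ^ 4 := hv4'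
        _ = 1 * v ^ 4 := by ring
        _ ≤ u ^ 2 * v ^ 4 := mul_le_mul_of_nonneg_right hu2' (by positivity)
    have h1 : (cnt (univ : Finset (Fin n × Fin n)) : ℝ) ≤ (n : ℝ) ^ n := by
      exact_mod_cast e3_cnt_le n
    refine h1.trans ?_
    have h2 : (n : ℝ) ^ n = Real.exp ((n : ℝ) * Real.log n) := by
      rw [Real.exp_nat_mul, Real.exp_log hn0]
    rw [h2, Real.exp_le_exp]
    have h3 : Real.log n ≤ n := by
      have := Real.log_le_sub_one_of_pos hn0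
      linarith
    have h4 : (n : ℝ) ≤ n₁ := by
      have : n ≤ n₁ := hlarge.le
      exact_mod_cast this
    have h5 : (n : ℝ) * Real.log n ≤ (n₁ : ℝ) ^ 2 := by
      calc (n : ℝ) * Real.log n ≤ n * n := mul_le_mul_of_nonneg_left h3 hn0.le
        _ ≤ (n₁ : ℝ) * n₁ := mul_le_mul h4 h4 hn0.le (by positivity)
        _ = (n₁ : ℝ) ^ 2 := by ring
    have h6 : (n₁ : ℝ) ^ 2 = 4 * (n₁ : ℝ) ^ 2 * (1 / 4) := by ring
    have h7 : 4 * (n₁ : ℝ) ^ 2 * (1 / 4) ≤ 4 * (n₁ : ℝ) ^ 2 * (u ^ 2 * v ^ 4) :=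
      mul_le_mul_of_nonneg_left hW (by positivity)
    have h8 : (0 : ℝ) ≤ 4000 * (u ^ 2 * v ^ 4) := by positivity
    linarith

end Pool.Agent.CSP
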