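import Mathlib
import Pool.Agent.Lib_helper89.CSP.Defs2
set_option autoImplicit false

namespace Pool.Agent.CSP

open Finset

theorem i1_ne {p a b : ℕ} (ha : a < p) (hb : b < p) (h : a ≠ b) : (a : ZMod p) ≠ (b : ZMod p) := by
  intro he
  rw [ZMod.natCast_eq_natCast_iff'] at he
  rw [Nat.mod_eq_of_lt ha, Nat.mod_eq_of_lt hb] at he
  exact h he

theorem i1_ne0 {p a : ℕ} (ha : a < p) (h : 1 ≤ a) : (a : ZMod p) ≠ 0 := by
  have h1 := i1_ne (p := p) (a := a) (b := 0) ha (by omega) (by omega)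
  simpa using h1

theorem i1_iff {p w y u v : ℕ} : (p : ℤ) ∣ (u : ℤ) * v - w * ((u : ℤ) + v - y) ↔
    (u : ZMod p) * v - w * ((u : ZMod p) + v - y) = 0 := by
  rw [← ZMod.intCast_zmod_eq_zero_iff_dvd]
  push_cast
  exact Iff.rfl

/-- I1 -/
theorem hyp_ex {p w y : ℕ} (hp : p.Prime) (hw : 1 ≤ w) (hw' : w < p) (hy : 1 ≤ y) (hy' : y < p)
    (hwy : w ≠ y) {u : ℕ} (hu : 1 ≤ u) (hu' : u < p) (huw : u ≠ w) (huy : u ≠ y) :
    ∃ v, Hyp p w y u v := by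
  haveI : Fact p.Prime := ⟨hp⟩
  have h1 : (u : ZMod p) - w ≠ 0 := sub_ne_zero.2 (i1_ne hu' hw' huw)
  have h2 : (u : ZMod p) - y ≠ 0 := sub_ne_zero.2 (i1_ne hu' hy' huy)
  have h3 : (w : ZMod p) ≠ 0 := i1_ne0 hw' hw
  have hv : (w : ZMod p) * (u - y) / (u - w) ≠ 0 := div_ne_zero (mul_ne_zero h3 h2) h1
  refine ⟨((w : ZMod p) * (u - y) / (u - w)).val, hu, hu', ?_, ZMod.val_lt _, ?_⟩
  · rcases Nat.eq_zero_or_pos ((w : ZMod p) * (u - y) / (u - w)).val with h | h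
    · exact absurd ((ZMod.val_eq_zero _).1 h) hv
    · exact h
  · rw [i1_iff, ZMod.natCast_zmod_val]
    field_simp
    ring

theorem hyp_unique {p w y : ℕ} (hp : p.Prime) (hw : 1 ≤ w) (hw' : w < p) (hy : 1 ≤ y)
    (hy' : y < p) (hwy : w ≠ y) {u v v' : ℕ} (h : Hyp p w y u v) (h' : Hyp p w y u v') :
    v = v' := by
  haveI : Fact p.Prime := ⟨hp⟩
  obtain ⟨h1, h2, h3, h4, h5⟩ := h
  obtain ⟨-, -, h3', h4', h5'⟩ := h'
  rw [i1_iff] at h5 h5'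
  have hw0 : (w : ZMod p) ≠ 0 := i1_ne0 hw' hw
  by_contra hne
  have hvv : (v : ZMod p) - v' ≠ 0 := sub_ne_zero.2 (i1_ne h4 h4' hne)
  have hmul : ((u : ZMod p) - w) * ((v : ZMod p) - v') = 0 := by linear_combination h5 - h5'
  rcases mul_eq_zero.1 hmul with h | h
  · have hwy0 : (w : ZMod p) * ((w : ZMod p) - y) = 0 := by
      have hu : (u : ZMod p) = w := sub_eq_zero.1 h
      rw [hu] at h5
      linear_combination - h5
    rcases mul_eq_zero.1 hwy0 with h | h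
    · exact hw0 h
    · exact i1_ne hw' hy' hwy (sub_eq_zero.1 h)
  · exact hvv h

theorem i1_half {p w y : ℕ} (hp : p.Prime) (hw : 1 ≤ w) (hw' : w < p) (hy : 1 ≤ y) (hy' : y < p)
    (hwy : w ≠ y) {u v : ℕ} (h : Hyp p w y u v) : u ≠ w ∧ u ≠ y ∧ Hyp p w y v u := by
  haveI : Fact p.Prime := ⟨hp⟩
  obtain ⟨h1, h2, h3, h4, h5⟩ := h
  have h5' := i1_iff.1 h5
  have hw0 : (w : ZMod p) ≠ 0 := i1_ne0 hw' hw
  have hv0 : (v : ZMod p) ≠ 0 := i1_ne0 h4 h3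
  have hwy0 : (w : ZMod p) - y ≠ 0 := sub_ne_zero.2 (i1_ne hw' hy' hwy)
  refine ⟨?_, ?_, h3, h4, h1, h2, ?_⟩
  · rintro rfl
    exact mul_ne_zero hw0 hwy0 (by linear_combination - h5')
  · rintro rfl
    exact mul_ne_zero hwy0 hv0 (by linear_combination - h5')
  · have e : (v : ℤ) * u - w * ((v : ℤ) + u - y) = (u : ℤ) * v - w * ((u : ℤ) + v - y) := by ring
    rw [e]
    exact h5

theorem hyp_facts {p w y : ℕ} (hp : p.Prime) (hw : 1 ≤ w) (hw' : w < p) (hy : 1 ≤ y) (hy' : y < p)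
    (hwy : w ≠ y) {u v : ℕ} (h : Hyp p w y u v) :
    u ≠ w ∧ u ≠ y ∧ v ≠ w ∧ v ≠ y ∧ u + v ≠ y ∧ u + v ≠ y + p ∧ Hyp p w y v u := by
  haveI : Fact p.Prime := ⟨hp⟩
  obtain ⟨a1, a2, a3⟩ := i1_half hp hw hw' hy hy' hwy h
  obtain ⟨b1, b2, -⟩ := i1_half hp hw hw' hy hy' hwy a3
  obtain ⟨h1, h2, h3, h4, h5⟩ := h
  rw [i1_iff] at h5
  have hu0 : (u : ZMod p) ≠ 0 := i1_ne0 h2 h1
  have hv0 : (v : ZMod p) ≠ 0 := i1_ne0 h4 h3
  refine ⟨a1, a2, b1, b2, ?_, ?_, a3⟩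
  · intro he
    have he' : (u : ZMod p) + v = y := by
      have := congrArg (fun n : ℕ => (n : ZMod p)) he
      simpa using this
    rw [he', sub_self, mul_zero, sub_zero] at h5
    exact mul_ne_zero hu0 hv0 h5
  · intro he
    have he' : (u : ZMod p) + v = y := by
      have := congrArg (fun n : ℕ => (n : ZMod p)) he
      simpa using this
    rw [he', sub_self, mul_zero, sub_zero] at h5
    exact mul_ne_zero hu0 hv0 h5

end Pool.Agent.CSP
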