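import Mathlib
import Pool.Agent.Lib_helper89.CSP.Defs2
set_option autoImplicit false

namespace Pool.Agent.CSP

open Finset

theorem i2_two {p w y : ℕ} (hp : p.Prime) {σ u v u' v' : ℕ} (h : Hyp p w y u v) (hs : u + v = σ)
    (h' : Hyp p w y u' v') (hs' : u' + v' = σ) (hne : u ≠ u') : p ∣ u + u' + (σ * (p - 1)) := by
  obtain ⟨h1, h2, h3, h4, h5⟩ := h
  obtain ⟨h1', h2', h3', h4', h5'⟩ := h'
  have hv : (v : ℤ) = (σ : ℤ) - u := by omega
  have hv' : (v' : ℤ) = (σ : ℤ) - u' := by omega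
  have h6 := dvd_sub h5 h5'
  have e : (u : ℤ) * v - w * ((u : ℤ) + v - y) - ((u' : ℤ) * v' - w * ((u' : ℤ) + v' - y)) =
      ((u : ℤ) - u') * (σ - u - u') := by
    rw [hv, hv']
    ring
  rw [e] at h6
  have hpp : Prime (p : ℤ) := Nat.prime_iff_prime_int.mp hp
  rcases hpp.dvd_or_dvd h6 with h7 | h7
  · exfalso
    obtain ⟨k, hk⟩ := h7
    have hk0 : k = 0 := by
      by_contra hk0
      have h8 : (1 : ℤ) ≤ |k| := Int.one_le_abs hk0
      have h9 : |(u : ℤ) - u'| = p * |k| := by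
        rw [hk, abs_mul]
        simp
      have h10 : |(u : ℤ) - u'| < p := by
        rw [abs_lt]
        constructor <;> omega
      nlinarith
    rw [hk0, mul_zero] at hk
    omega
  · have h8 : (p : ℤ) ∣ ((u + u' + σ * (p - 1) : ℕ) : ℤ) := by
      have hp1 : 1 ≤ p := hp.one_le
      have e2 : ((u + u' + σ * (p - 1) : ℕ) : ℤ) = σ * p - (σ - u - u') := by
        push_cast [Nat.cast_sub hp1]
        ring
      rw [e2]
      exact dvd_sub (dvd_mul_left _ _) h7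
    exact_mod_cast h8

/-- I2: at most two solutions with a given sum -/
theorem hyp_sum {p w y : ℕ} (hp : p.Prime) (σ : ℕ) (A : Finset ℕ)
    (hA : ∀ u ∈ A, ∃ v, Hyp p w y u v ∧ u + v = σ) : A.card ≤ 2 := by
  by_contra hcon
  push Not at hcon
  obtain ⟨a, ha, b, hb, c, hc, hab, hac, hbc⟩ := Finset.two_lt_card.mp hcon
  obtain ⟨va, hva, sa⟩ := hA a ha
  obtain ⟨vb, hvb, sb⟩ := hA b hb
  obtain ⟨vc, hvc, sc⟩ := hA c hc
  have h1 := i2_two hp hva sa hvb sb hab
  have h2 := i2_two hp hva sa hvc sc hac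
  have h3 : (p : ℤ) ∣ (b : ℤ) - c := by
    have h1' : (p : ℤ) ∣ ((a + b + σ * (p - 1) : ℕ) : ℤ) := by exact_mod_cast h1
    have h2' : (p : ℤ) ∣ ((a + c + σ * (p - 1) : ℕ) : ℤ) := by exact_mod_cast h2
    have h3' := dvd_sub h1' h2'
    have e : ((a + b + σ * (p - 1) : ℕ) : ℤ) - ((a + c + σ * (p - 1) : ℕ) : ℤ) = (b : ℤ) - c := by
      push_cast
      ring
    rwa [e] at h3'
  obtain ⟨k, hk⟩ := h3
  have hbp := hvb.2.1
  have hcp := hvc.2.1
  have hk0 : k = 0 := by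
    by_contra hk0
    have h8 : (1 : ℤ) ≤ |k| := Int.one_le_abs hk0
    have h9 : |(b : ℤ) - c| = p * |k| := by
      rw [hk, abs_mul]
      simp
    have h10 : |(b : ℤ) - c| < p := by
      rw [abs_lt]
      constructor <;> omega
    nlinarith
  rw [hk0, mul_zero] at hk
  omega

end Pool.Agent.CSP
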