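import Mathlib
import Pool.Agent.Lib_helper89.CSP.Defs2
set_option autoImplicit false

namespace Pool.Agent.CSP

open Finset

theorem i3_sum_low (n : ℕ) : ∀ A : Finset ℕ, A.card = n → (∀ u ∈ A, 1 ≤ u) →
    n * (n + 1) ≤ 2 * ∑ u ∈ A, u := by
  induction n with
  | zero => intro A _ _; simp
  | succ n ih =>
    intro A hA h1
    have hne : A.Nonempty := by
      rw [← Finset.card_pos, hA]; omega
    obtain ⟨m, hm, hmax⟩ := Finset.exists_max_image A (fun u => u) hne
    have hsub : A ⊆ Finset.Icc 1 m := by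
      intro u hu
      exact Finset.mem_Icc.2 ⟨h1 u hu, hmax u hu⟩
    have hcard : n + 1 ≤ m := by
      have h := Finset.card_le_card hsub
      rw [hA, Nat.card_Icc] at h
      omega
    have h2 := ih (A.erase m) (by rw [Finset.card_erase_of_mem hm, hA]; rfl)
      (fun u hu => h1 u (Finset.mem_of_mem_erase hu))
    have h3 : ∑ u ∈ A, u = m + ∑ u ∈ A.erase m, u := (Finset.add_sum_erase A (fun u => u) hm).symm
    rw [h3]
    nlinarith

theorem i3_sum_e (e : ℕ → ℕ) (n : ℕ) : ∀ A : Finset ℕ, A.card = n →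
    (∀ σ, (A.filter (fun u => e u = σ)).card ≤ 2) →
    n * n + n % 2 ≤ 4 * (∑ u ∈ A, e u) + 2 * n := by
  induction n with
  | zero => intro A _ _; simp
  | succ n ih =>
    intro A hA h2
    have hne : A.Nonempty := by
      rw [← Finset.card_pos, hA]; omega
    obtain ⟨m, hm, hmax⟩ := Finset.exists_max_image A e hne
    have hsub : A.image e ⊆ Finset.range (e m + 1) := by
      intro x hx
      obtain ⟨u, hu, rfl⟩ := Finset.mem_image.1 hx
      exact Finset.mem_range.2 (Nat.lt_succ_of_le (hmax u hu))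
    have hcard : n + 1 ≤ 2 * (e m + 1) := by
      have h3 := Finset.card_le_mul_card_image (f := e) A 2 (fun a _ => h2 a)
      have h4 := Finset.card_le_card hsub
      rw [Finset.card_range] at h4
      rw [hA] at h3
      calc n + 1 ≤ 2 * (A.image e).card := h3
        _ ≤ 2 * (e m + 1) := by omega
    have h5 := ih (A.erase m) (by rw [Finset.card_erase_of_mem hm, hA]; rfl)
      (fun σ => (Finset.card_le_card (Finset.filter_subset_filter _ (Finset.erase_subset m A))).trans
        (h2 σ))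
    have h6 : ∑ u ∈ A, e u = e m + ∑ u ∈ A.erase m, e u := (Finset.add_sum_erase A e hm).symm
    rw [h6]
    have h7 : (n + 1) * (n + 1) = n * n + 2 * n + 1 := by ring
    rw [h7]
    rcases Nat.even_or_odd' n with ⟨k, hk | hk⟩
    · omega
    · omega

/-- I3: a set of numbers with an involution -/
theorem slack (y : ℕ) (A : Finset ℕ) (V : ℕ → ℕ) (h1 : ∀ u ∈ A, 1 ≤ u) (hV : ∀ u ∈ A, V u ∈ A)
    (hVV : ∀ u ∈ A, V (V u) = u) (hlt : ∀ u ∈ A, u + V u < y)
    (h2 : ∀ σ, (A.filter (fun u => u + V u = σ)).card ≤ 2) : 5 * A.card + 6 ≤ 4 * y ∨ A = ∅ := by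
  rcases Finset.eq_empty_or_nonempty A with hA | hA
  · exact Or.inr hA
  left
  have hpos : 0 < A.card := Finset.card_pos.2 hA
  -- the sum of the values of the involution
  have hsumV : ∑ u ∈ A, V u = ∑ u ∈ A, u := by
    refine Finset.sum_nbij' V V hV hV hVV hVV ?_
    intro u _
    rfl
  have hlow := i3_sum_low A.card A rfl h1
  have hfib : ∀ σ, (A.filter (fun u => y - 1 - (u + V u) = σ)).card ≤ 2 := by
    intro σ
    refine le_trans (Finset.card_le_card ?_) (h2 (y - 1 - σ))
    intro u hu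
    obtain ⟨hu1, hu2⟩ := Finset.mem_filter.1 hu
    refine Finset.mem_filter.2 ⟨hu1, ?_⟩
    have := hlt u hu1
    omega
  have he := i3_sum_e (fun u => y - 1 - (u + V u)) A.card A rfl hfib
  have hsum : ∑ u ∈ A, (y - 1 - (u + V u)) + (∑ u ∈ A, u + ∑ u ∈ A, V u) = A.card * (y - 1) := by
    rw [← Finset.sum_add_distrib, ← Finset.sum_add_distrib]
    rw [Finset.sum_congr rfl (g := fun _ => y - 1), Finset.sum_const, smul_eq_mul]
    intro u hu
    have := hlt u hu
    omega
  rw [hsumV] at hsum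
  obtain ⟨u0, hu0⟩ := hA
  have hy : 1 ≤ y := by have := hlt u0 hu0; omega
  obtain ⟨z, rfl⟩ : ∃ z, y = z + 1 := ⟨y - 1, by omega⟩
  simp only [Nat.add_sub_cancel] at hsum he
  set a := A.card with ha
  set E := ∑ u ∈ A, (z - (u + V u)) with hE
  set S := ∑ u ∈ A, u with hS
  -- 5 a + 6 ≤ 4 (z + 1)
  by_contra hcon
  push Not at hcon
  have h3 : 4 * z ≤ 5 * a + 1 := by omega
  have h4 : a * a ≤ 4 * E + 2 * a := by
    have := Nat.zero_le (a % 2)
    omega
  have h5 : 4 * (a * z) ≤ a * (5 * a + 1) := by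
    calc 4 * (a * z) = a * (4 * z) := by ring
      _ ≤ a * (5 * a + 1) := Nat.mul_le_mul_left a h3
  nlinarith

end Pool.Agent.CSP
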