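import Mathlib
import Pool.Agent.Lib_helper89.CSP.Defs2
import Pool.Agent.Lib_helper89.CSP.R.I1
import Pool.Agent.Lib_helper89.CSP.R.I2
import Pool.Agent.Lib_helper89.CSP.R.I3
set_option autoImplicit false


/-! Block I4 -/

namespace Pool.Agent.CSP

open Finset

theorem hyp_low {p w y : ℕ} (hp : p.Prime) (hw : 1 ≤ w) (hw' : w < p) (hy : 1 ≤ y) (hy' : y < p)
    (hwy : w ≠ y) (A G : Finset ℕ) (hA : ∀ u, u ∈ A ↔ ∃ v, Hyp p w y u v ∧ u + v < y)
    (hG : ∀ u, 1 ≤ u → u < y → u ≠ w → u ∉ A → u ∈ G) :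
    A.card ≤ 4 * G.card + 2 ∧ y ≤ A.card + G.card + 1 + (if w < y then 1 else 0) := by
  have hsecond : y ≤ A.card + G.card + 1 + (if w < y then 1 else 0) := by
    have h1 : (Icc 1 (y - 1)).erase w ⊆ A ∪ G := by
      intro u hu
      rw [Finset.mem_erase, Finset.mem_Icc] at hu
      rw [Finset.mem_union]
      by_cases huA : u ∈ A
      · exact Or.inl huA
      · exact Or.inr (hG u hu.2.1 (by omega) hu.1 huA)
    have h2 := Finset.card_le_card h1
    have h3 := Finset.card_union_le A G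
    have h4 : (Icc 1 (y - 1)).card = y - 1 := by rw [Nat.card_Icc]; omega
    by_cases hwy' : w < y
    · rw [if_pos hwy']
      have h5 : w ∈ Icc 1 (y - 1) := by
        rw [Finset.mem_Icc]; omega
      rw [Finset.card_erase_of_mem h5, h4] at h2
      omega
    · rw [if_neg hwy']
      have h5 : w ∉ Icc 1 (y - 1) := by
        rw [Finset.mem_Icc]; omega
      rw [Finset.erase_eq_of_notMem h5, h4] at h2
      omega
  refine ⟨?_, hsecond⟩
  classical
  have hch : ∀ u, ∃ v, u ∈ A → Hyp p w y u v ∧ u + v < y := by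
    intro u
    by_cases hu : u ∈ A
    · obtain ⟨v, hv⟩ := (hA u).mp hu
      exact ⟨v, fun _ => hv⟩
    · exact ⟨0, fun h => absurd h hu⟩
  choose V hV using hch
  have hVA : ∀ u ∈ A, V u ∈ A := by
    intro u hu
    have h1 := hV u hu
    have h2 := (hyp_facts hp hw hw' hy hy' hwy h1.1).2.2.2.2.2.2
    exact (hA (V u)).mpr ⟨u, h2, by omega⟩
  have hVV : ∀ u ∈ A, V (V u) = u := by
    intro u hu
    have h1 := hV u hu
    have h2 := (hyp_facts hp hw hw' hy hy' hwy h1.1).2.2.2.2.2.2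
    exact hyp_unique hp hw hw' hy hy' hwy (hV (V u) (hVA u hu)).1 h2
  have h := slack y A V (fun u hu => (hV u hu).1.1) hVA hVV (fun u hu => (hV u hu).2) (by
    intro σ
    apply hyp_sum (w := w) (y := y) hp σ
    intro u hu
    rw [Finset.mem_filter] at hu
    exact ⟨V u, (hV u hu.1).1, hu.2⟩)
  rcases h with h | h
  · split_ifs at hsecond <;> omega
  · rw [h]; simp

end Pool.Agent.CSP
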