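import Mathlib
import Pool.Agent.Lib_helper89.CSP.Defs2
import Pool.Agent.Lib_helper89.CSP.R.I1
import Pool.Agent.Lib_helper89.CSP.R.I4
set_option autoImplicit false

/-! CSP block I5: the number of the solutions (helper8) -/


namespace Pool.Agent.CSP

open Finset

theorem i5_refl {p w y u v : ℕ} (hw' : w < p) (hy' : y < p) (h : Hyp p w y u v) :
    Hyp p (p - w) (p - y) (p - u) (p - v) := by
  obtain ⟨h1, h2, h3, h4, h5⟩ := h
  refine ⟨by omega, by omega, by omega, by omega, ?_⟩
  rw [Nat.cast_sub h2.le, Nat.cast_sub h4.le, Nat.cast_sub hw'.le, Nat.cast_sub hy'.le]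
  obtain ⟨c, hc⟩ := h5
  refine ⟨c + (-(u : ℤ) - v) + (w + u + v - y), ?_⟩
  linear_combination hc

/-- I5 -/
theorem hyp_count {p w y : ℕ} (hp : p.Prime) (hw : 1 ≤ w) (hw' : w < p) (hy : 1 ≤ y) (hy' : y < p)
    (hwy : w ≠ y) (T : Finset (ℕ × ℕ))
    (hT : ∀ u v, Hyp p w y u v → y < u + v → u + v < y + p → (u, v) ∈ T) :
    p ≤ 5 * T.card + 7 := by
  classical
  set A : Finset ℕ := (range p).filter (fun u => ∃ v, Hyp p w y u v ∧ u + v < y) with hA
  set B : Finset ℕ := (range p).filter
    (fun u => ∃ v, Hyp p (p - w) (p - y) u v ∧ u + v < p - y) with hB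
  set T1 : Finset (ℕ × ℕ) := T.filter (fun t => t.1 < y) with hT1
  set T2 : Finset (ℕ × ℕ) := T.filter (fun t => y < t.1) with hT2
  have memA : ∀ u, u ∈ A ↔ ∃ v, Hyp p w y u v ∧ u + v < y := by
    intro u
    rw [hA, Finset.mem_filter, Finset.mem_range]
    constructor
    · exact fun h => h.2
    · rintro ⟨v, h1, h2⟩
      exact ⟨h1.2.1, v, h1, h2⟩
  have memB : ∀ u, u ∈ B ↔ ∃ v, Hyp p (p - w) (p - y) u v ∧ u + v < p - y := by
    intro u
    rw [hB, Finset.mem_filter, Finset.mem_range]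
    constructor
    · exact fun h => h.2
    · rintro ⟨v, h1, h2⟩
      exact ⟨h1.2.1, v, h1, h2⟩
  have low1 := hyp_low hp hw hw' hy hy' hwy A (T1.image Prod.fst) memA (by
    intro u hu huy huw huA
    obtain ⟨v, hv⟩ := hyp_ex hp hw hw' hy hy' hwy hu (huy.trans hy') huw huy.ne
    obtain ⟨_, _, _, _, f5, _, _⟩ := hyp_facts hp hw hw' hy hy' hwy hv
    have hge : ¬ u + v < y := fun hlt => huA ((memA u).2 ⟨v, hv, hlt⟩)
    have hvp := hv.2.2.2.1
    rw [Finset.mem_image]
    refine ⟨(u, v), ?_, rfl⟩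
    rw [hT1, Finset.mem_filter]
    exact ⟨hT u v hv (by omega) (by omega), huy⟩)
  have low2 := hyp_low (w := p - w) (y := p - y) hp (by omega) (by omega) (by omega) (by omega)
    (by omega) B (T2.image (fun t => p - t.1)) memB (by
    intro u' hu' huy' huw' huB
    have hu1 : 1 ≤ p - u' := by omega
    obtain ⟨v, hv⟩ := hyp_ex hp hw hw' hy hy' hwy (u := p - u') hu1 (by omega) (by omega)
      (by omega)
    obtain ⟨_, _, _, _, _, f6, _⟩ := hyp_facts hp hw hw' hy hy' hwy hv
    have hr := i5_refl hw' hy' hv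
    have e1 : p - (p - u') = u' := by omega
    rw [e1] at hr
    have hvp := hv.2.2.2.1
    have hv1 := hv.2.2.1
    have hge : ¬ u' + (p - v) < p - y := fun hlt => huB ((memB u').2 ⟨p - v, hr, hlt⟩)
    rw [Finset.mem_image]
    refine ⟨(p - u', v), ?_, e1⟩
    rw [hT2, Finset.mem_filter]
    refine ⟨hT _ _ hv (by omega) (by omega), ?_⟩
    show y < p - u'
    omega)
  have c1 : (T1.image Prod.fst).card ≤ T1.card := Finset.card_image_le
  have c2 : (T2.image (fun t => p - t.1)).card ≤ T2.card := Finset.card_image_le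
  have c3 : T1.card + T2.card ≤ T.card := by
    rw [← Finset.card_union_of_disjoint]
    · apply Finset.card_le_card
      intro t ht
      rw [Finset.mem_union] at ht
      rcases ht with ht | ht
      · exact (Finset.mem_filter.1 ht).1
      · exact (Finset.mem_filter.1 ht).1
    · rw [Finset.disjoint_left]
      intro t h1 h2
      have h3 := (Finset.mem_filter.1 h1).2
      have h4 := (Finset.mem_filter.1 h2).2
      omega
  obtain ⟨l1, l2⟩ := low1
  obtain ⟨l3, l4⟩ := low2
  have e3 : (if w < y then 1 else 0) + (if p - w < p - y then 1 else 0) ≤ 1 := by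
    split_ifs <;> omega
  omega

end Pool.Agent.CSP
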