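import Mathlib
import Pool.Agent.Lib_helper89.CSP.Defs2
set_option autoImplicit false


/-! Block I6 -/

namespace Pool.Agent.CSP

open Finset

theorem i6_pow {p : ℕ} (hp : p.Prime) {g : ZMod p} (hg : orderOf g = p - 1) {m k : ℕ}
    (h : g ^ m = g ^ k) : m ≡ k [MOD (p - 1)] := by
  have : Fact p.Prime := ⟨hp⟩
  have hp2 := hp.two_le
  have hg0 : g ≠ 0 := by
    intro h0
    have h1 : g ^ (p - 1) = 1 := by rw [← hg]; exact pow_orderOf_eq_one g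
    rw [h0, zero_pow (by omega)] at h1
    exact zero_ne_one h1
  have h2 : (Units.mk0 g hg0) ^ m = (Units.mk0 g hg0) ^ k := by
    apply Units.ext
    simpa using h
  have h3 : orderOf (Units.mk0 g hg0) = p - 1 := by
    rw [← orderOf_units, Units.val_mk0]; exact hg
  rw [← h3]
  exact pow_eq_pow_iff_modEq.mp h2

theorem welch_bij {p : ℕ} {f : Fin (p - 1) → Fin (p - 1)} (hf : W1 p f) :
    Function.Bijective f := by
  obtain ⟨hp, g, hg, c, hc⟩ := hf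
  rw [← Finite.injective_iff_bijective]
  intro a b hab
  have h1 : g ^ ((a : ℕ) + c) = g ^ ((b : ℕ) + c) := by
    rw [← hc a, ← hc b, hab]
  have h2 := Nat.ModEq.add_right_cancel' c (i6_pow hp hg h1)
  apply Fin.ext
  exact Nat.ModEq.eq_of_lt_of_lt h2 a.isLt b.isLt

theorem welch_hyp {p : ℕ} {f : Fin (p - 1) → Fin (p - 1)} (hf : W1 p f) {i y a b : Fin (p - 1)}
    (h : Hyp p ((f i : ℕ) + 1) ((y : ℕ) + 1) ((f a : ℕ) + 1) ((f b : ℕ) + 1))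
    (h1 : (y : ℕ) < (f a : ℕ) + f b + 1) (h2 : (f a : ℕ) + f b + 1 < y + p) :
    ∃ c : Fin (p - 1), a + b = i + c ∧ (f a : ℕ) + f b = y + f c := by
  have hbij := welch_bij hf
  obtain ⟨hp, g, hg, c₀, hc⟩ := hf
  obtain ⟨c, hcc⟩ := hbij.2 ⟨(f a : ℕ) + f b - y, by omega⟩
  have hfc : (f c : ℕ) = (f a : ℕ) + f b - y := by rw [hcc]
  refine ⟨c, ?_, by omega⟩
  obtain ⟨_, _, _, _, hdvd⟩ := h
  have h3 : ((((f a : ℕ) + 1 : ℕ) : ℤ) * (((f b : ℕ) + 1 : ℕ) : ℤ) -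
      (((f i : ℕ) + 1 : ℕ) : ℤ) * (((((f a : ℕ) + 1 : ℕ) : ℤ)) + (((f b : ℕ) + 1 : ℕ) : ℤ) -
        (((y : ℕ) + 1 : ℕ) : ℤ)) : ℤ) = (((f a : ℕ) + 1 : ℕ) : ℤ) * (((f b : ℕ) + 1 : ℕ) : ℤ) -
      (((f i : ℕ) + 1 : ℕ) : ℤ) * (((f c : ℕ) + 1 : ℕ) : ℤ) := by
    have h4 : ((((f a : ℕ) + 1 : ℕ) : ℤ)) + (((f b : ℕ) + 1 : ℕ) : ℤ) - (((y : ℕ) + 1 : ℕ) : ℤ) =
        (((f c : ℕ) + 1 : ℕ) : ℤ) := by
      push_cast
      omega
    rw [h4]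
  have h5 := (ZMod.intCast_zmod_eq_zero_iff_dvd _ p).mpr hdvd
  rw [h3] at h5
  have h6 : (((f a : ℕ) + 1 : ℕ) : ZMod p) * (((f b : ℕ) + 1 : ℕ) : ZMod p) =
      (((f i : ℕ) + 1 : ℕ) : ZMod p) * (((f c : ℕ) + 1 : ℕ) : ZMod p) := by
    rw [Int.cast_sub, Int.cast_mul, Int.cast_mul, Int.cast_natCast, Int.cast_natCast,
      Int.cast_natCast, Int.cast_natCast] at h5
    exact sub_eq_zero.mp h5
  rw [hc a, hc b, hc i, hc c, ← pow_add, ← pow_add] at h6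
  have h7 := i6_pow hp hg h6
  have h8 : ((a : ℕ) + b) + (c₀ + c₀) ≡ ((i : ℕ) + c) + (c₀ + c₀) [MOD (p - 1)] := by
    have e1 : ((a : ℕ) + b) + (c₀ + c₀) = (a : ℕ) + c₀ + ((b : ℕ) + c₀) := by ring
    have e2 : ((i : ℕ) + c) + (c₀ + c₀) = (i : ℕ) + c₀ + ((c : ℕ) + c₀) := by ring
    rw [e1, e2]; exact h7
  have h9 := Nat.ModEq.add_right_cancel' (c₀ + c₀) h8
  apply Fin.ext
  rw [Fin.val_add, Fin.val_add]
  exact h9

end Pool.Agent.CSP
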