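import Mathlib
import Pool.Agent.Lib_helper89.CSP.Defs2
import Pool.Agent.Lib_helper89.CSP.R.I6
set_option autoImplicit false

namespace Pool.Agent.CSP

open Finset

/-- I7 -/
theorem welch_sid {p : ℕ} {f : Fin (p - 1) → Fin (p - 1)} (hf : W1 p f) : Sid f := by
  have hinj := (welch_bij hf).injective
  obtain ⟨hp, g, hg, c0, hc⟩ := hf
  haveI : Fact p.Prime := ⟨hp⟩
  intro a b c e hab hsum hval
  have hX : ∀ i : Fin (p - 1), (((f i : ℕ) : ZMod p)) + 1 = g ^ ((i : ℕ) + c0) := by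
    intro i
    have := hc i
    push_cast at this
    exact this
  have hmod : ((a : ℕ) + e) % (p - 1) = ((c : ℕ) + b) % (p - 1) := by
    have := congrArg Fin.val hsum
    simpa [Fin.val_add] using this
  have hpow : g ^ ((a : ℕ) + e) = g ^ ((c : ℕ) + b) := by
    have h1 : ∀ m : ℕ, g ^ (m % (p - 1)) = g ^ m := by
      intro m
      have := pow_mod_orderOf g m
      rwa [hg] at this
    rw [← h1 ((a : ℕ) + e), hmod, h1]
  have hprod : g ^ ((a : ℕ) + c0) * g ^ ((e : ℕ) + c0) = g ^ ((c : ℕ) + c0) * g ^ ((b : ℕ) + c0) := by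
    have h1 : g ^ ((a : ℕ) + c0) * g ^ ((e : ℕ) + c0) = g ^ ((a : ℕ) + e) * g ^ (c0 + c0) := by
      rw [← pow_add, ← pow_add]; congr 1; ring
    have h2 : g ^ ((c : ℕ) + c0) * g ^ ((b : ℕ) + c0) = g ^ ((c : ℕ) + b) * g ^ (c0 + c0) := by
      rw [← pow_add, ← pow_add]; congr 1; ring
    rw [h1, h2, hpow]
  have hadd : g ^ ((a : ℕ) + c0) + g ^ ((e : ℕ) + c0) = g ^ ((c : ℕ) + c0) + g ^ ((b : ℕ) + c0) := by
    rw [← hX, ← hX, ← hX, ← hX]
    have h1 : (((f a : ℕ) + f e : ℕ) : ZMod p) = (((f c : ℕ) + f b : ℕ) : ZMod p) := by rw [hval]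
    push_cast at h1
    linear_combination h1
  have hfac : (g ^ ((a : ℕ) + c0) - g ^ ((c : ℕ) + c0)) *
      (g ^ ((a : ℕ) + c0) - g ^ ((b : ℕ) + c0)) = 0 := by
    linear_combination (g ^ ((a : ℕ) + c0)) * hadd - hprod
  have key : ∀ j : Fin (p - 1), g ^ ((a : ℕ) + c0) - g ^ ((j : ℕ) + c0) = 0 → a = j := by
    intro j hj
    apply hinj
    rw [← hX, ← hX] at hj
    have h1 : (((f a : ℕ) : ZMod p)) = ((f j : ℕ) : ZMod p) := by linear_combination hj
    rw [ZMod.natCast_eq_natCast_iff'] at h1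
    rw [Nat.mod_eq_of_lt (by have := (f a).2; omega), Nat.mod_eq_of_lt (by have := (f j).2; omega)]
      at h1
    exact Fin.ext h1
  rcases mul_eq_zero.1 hfac with h | h
  · exact key c h
  · exact absurd (key b h) hab

end Pool.Agent.CSP
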