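import Mathlib
import Pool.Agent.Lib_helper89.CSP.Defs2
import Pool.Agent.Lib_helper89.CSP.R.A2
set_option autoImplicit false

namespace Pool.Agent.CSP

open Finset

/-- I8: if `f`, `h` differ in few columns then `(i, h i)` has few representations by dots of `f` -/
theorem few_rep {n : ℕ} {f h : Fin n → Fin n} (hf : Sid f) (hf' : Function.Injective f)
    (hh : Sid h) (hh' : Function.Injective h) (i : Fin n) (hi : f i ≠ h i)
    (T : Finset (Fin n × Fin n)) (hT : ∀ t ∈ T, ∃ c : Fin n, t.1 + t.2 = i + c ∧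
      (f t.1 : ℕ) + f t.2 = h i + f c) :
    T.card ≤ 4 * (univ.filter (fun j => f j ≠ h j)).card := by
  classical
  have hy : h i ≠ f i := hi.symm
  set Δ : Finset (Fin n) := univ.filter (fun j => f j ≠ h j) with hΔ
  have hmem : ∀ j, j ∉ Δ → f j = h j := by
    intro j hj
    by_contra hne
    exact hj (by rw [hΔ, mem_filter]; exact ⟨mem_univ _, hne⟩)
  have hne : Nonempty (Fin n) := ⟨i⟩
  choose! c hc using hT
  have hcov : T ⊆ T.filter (fun t => t.1 ∈ Δ) ∪ (T.filter (fun t => t.2 ∈ Δ) ∪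
      T.filter (fun t => c t ∈ Δ)) := by
    intro t ht
    obtain ⟨h1, h2⟩ := hc t ht
    by_contra hcon
    have ha : t.1 ∉ Δ := fun hx => hcon (mem_union.2 (Or.inl (mem_filter.2 ⟨ht, hx⟩)))
    have hb : t.2 ∉ Δ := fun hx =>
      hcon (mem_union.2 (Or.inr (mem_union.2 (Or.inl (mem_filter.2 ⟨ht, hx⟩)))))
    have hcc : c t ∉ Δ := fun hx =>
      hcon (mem_union.2 (Or.inr (mem_union.2 (Or.inr (mem_filter.2 ⟨ht, hx⟩)))))
    obtain ⟨hai, hbi⟩ := rep_ne hf hf' hy h1 h2
    have h3 : (h i : ℕ) + h (c t) = h t.1 + h t.2 := by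
      rw [← hmem _ ha, ← hmem _ hb, ← hmem _ hcc]
      omega
    exact hai (hh i t.2 t.1 (c t) (Ne.symm hbi) h1.symm h3).symm
  have hA : (T.filter (fun t => t.1 ∈ Δ)).card ≤ Δ.card := by
    refine Finset.card_le_card_of_injOn Prod.fst ?_ ?_
    · intro t ht
      rw [Finset.mem_coe, mem_filter] at ht
      exact ht.2
    · intro t ht t' ht' heq
      rw [Finset.mem_coe, mem_filter] at ht ht'
      obtain ⟨h1, h2⟩ := hc t ht.1
      obtain ⟨h1', h2'⟩ := hc t' ht'.1
      have heq' : t.1 = t'.1 := heq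
      rw [← heq'] at h1' h2'
      exact Prod.ext heq' (rep_a hf hy h1 h2 h1' h2').1
  have hB : (T.filter (fun t => t.2 ∈ Δ)).card ≤ Δ.card := by
    refine Finset.card_le_card_of_injOn Prod.snd ?_ ?_
    · intro t ht
      rw [Finset.mem_coe, mem_filter] at ht
      exact ht.2
    · intro t ht t' ht' heq
      rw [Finset.mem_coe, mem_filter] at ht ht'
      obtain ⟨h1, h2⟩ := hc t ht.1
      obtain ⟨h1', h2'⟩ := hc t' ht'.1
      have heq' : t.2 = t'.2 := heq
      rw [← heq'] at h1' h2'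
      exact Prod.ext (rep_b hf hy h1 h2 h1' h2').1 heq'
  have hC : (T.filter (fun t => c t ∈ Δ)).card ≤ 2 * Δ.card := by
    refine Finset.card_le_mul_card_image_of_maps_to (f := c) (fun t ht => (mem_filter.1 ht).2) 2 ?_
    intro b _
    by_cases hne : ((T.filter (fun t => c t ∈ Δ)).filter (fun t => c t = b)).Nonempty
    · obtain ⟨t0, ht0⟩ := hne
      rw [mem_filter, mem_filter] at ht0
      obtain ⟨h1, h2⟩ := hc t0 ht0.1.1
      have hsub : (T.filter (fun t => c t ∈ Δ)).filter (fun t => c t = b) ⊆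
          {t0, (t0.2, t0.1)} := by
        intro t ht
        rw [mem_filter, mem_filter] at ht
        obtain ⟨h1', h2'⟩ := hc t ht.1.1
        rw [ht.2, ← ht0.2] at h1' h2'
        rw [mem_insert, mem_singleton]
        rcases rep_c hf hy h1 h2 h1' h2' with ⟨e1, e2⟩ | ⟨e1, e2⟩
        · exact Or.inl (Prod.ext e1.symm e2.symm)
        · exact Or.inr (Prod.ext e2.symm e1.symm)
      exact (Finset.card_le_card hsub).trans Finset.card_le_two
    · rw [Finset.not_nonempty_iff_eq_empty] at hne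
      rw [hne]
      simp
  calc T.card ≤ _ := Finset.card_le_card hcov
    _ ≤ (T.filter (fun t => t.1 ∈ Δ)).card + (T.filter (fun t => t.2 ∈ Δ) ∪
      T.filter (fun t => c t ∈ Δ)).card := Finset.card_union_le _ _
    _ ≤ (T.filter (fun t => t.1 ∈ Δ)).card + ((T.filter (fun t => t.2 ∈ Δ)).card +
      (T.filter (fun t => c t ∈ Δ)).card) := Nat.add_le_add_left (Finset.card_union_le _ _) _
    _ ≤ 4 * Δ.card := by omega

end Pool.Agent.CSP
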